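import Pool.Agent.Lib_helper73.Gap.St6

/-! MP_f6626d_co, module LIM2: scaling limit of the marked generating function of staircase
polygons with area weights. -/

set_option autoImplicit false

open Finset Filter Topology

namespace Pool.Agent.Gap

/-- MODULE LIM2 : scaling limit of the staircase model, array form. -/
def LIM2_Stmt : Prop := ∀ (lam : ℝ) (w : ℂ), 0 ≤ lam → 0 < w.re → ∀ (N : ℕ → ℕ),
  (∀ n, 4 * n ^ 2 ≤ N n) → ∀ (b : ℕ → ℕ → ℤ → ℝ),
    (∀ n, IsArr stair cap1 (epsn lam n) (N n) (b n)) →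
    ∃ l : ℂ, Tendsto (fun n : ℕ => sgf 1 (close 1 cap1 (b n)) (zn (1 / 4) w n)
      / ((Real.sqrt n : ℝ) : ℂ)) atTop (𝓝 l)

namespace St

/-- exact closed coefficients -/
noncomputable def ce (q : ℝ) : ℕ → ℝ
  | 0 => 0
  | 1 => 0
  | n + 2 => al q n

/-- the function `z^2 R(z)` on the half plane -/
noncomputable def Fh (lam h : ℝ) (ζ : ℂ) : ℂ :=
  ∑' k : ℕ, ((al (qh lam h) k : ℝ) : ℂ) * zh h ζ ^ (k + 2)

/-- rescaled -/
noncomputable def Jh (lam h : ℝ) (ζ : ℂ) : ℂ := (Fh lam h ζ - 1 / 4) / (h : ℂ)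

section
variable {lam h : ℝ}

lemma Fh_eq (ζ : ℂ) : Fh lam h ζ = zh h ζ ^ 2 * Rf (qh lam h) (zh h ζ) := by
  unfold Fh Rf
  rw [← tsum_mul_left]
  refine tsum_congr fun k => ?_
  rw [pow_add]
  ring

lemma Jh_eq (hh : 0 < h) (ζ : ℂ) :
    Jh lam h ζ = (Complex.exp (-(2 * ζ * (h : ℂ) ^ 2)) - 1) / (4 * h)
      - Complex.exp (-(2 * ζ * (h : ℂ) ^ 2)) * Ps lam h ζ / 2 := by
  have hh0 : (h : ℂ) ≠ 0 := by exact_mod_cast hh.ne'
  unfold Jh
  rw [Fh_eq]
  have h1 : Rf (qh lam h) (zh h ζ) = 4 - 8 * h * Ps lam h ζ := by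
    unfold Ps; field_simp; ring
  have h2 : zh h ζ ^ 2 = 1 / 16 * Complex.exp (-(2 * ζ * (h : ℂ) ^ 2)) := by
    rw [zh_pow]
    norm_num
    congr 1
    ring
  rw [h1, h2]
  field_simp
  ring

lemma zh_differentiable : Differentiable ℂ (zh h) := by
  unfold zh
  fun_prop

lemma zh_hasDerivAt (ζ : ℂ) : HasDerivAt (zh h) (-(h : ℂ) ^ 2 * zh h ζ) ζ := by
  unfold zh
  have h1 : HasDerivAt (fun s : ℂ => -(s * (h : ℂ) ^ 2)) (-(1 * (h : ℂ) ^ 2)) ζ :=
    ((hasDerivAt_id ζ).mul_const _).neg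
  have h2 := (h1.cexp).const_mul (1 / 4 : ℂ)
  have e : (1 / 4 : ℂ) * (Complex.exp (-(ζ * (h : ℂ) ^ 2)) * (-(1 * (h : ℂ) ^ 2))) =
      -(h : ℂ) ^ 2 * (1 / 4 * Complex.exp (-(ζ * (h : ℂ) ^ 2))) := by ring
  rw [← e]
  exact h2

lemma deriv_term (c : ℂ) (k : ℕ) (ζ : ℂ) :
    deriv (fun ζ => c * zh h ζ ^ (k + 2)) ζ = -(h : ℂ) ^ 2 * (((k + 2 : ℕ) : ℂ) * c * zh h ζ ^ (k + 2)) := by
  have h1 : HasDerivAt (fun ζ => c * zh h ζ ^ (k + 2))
      (c * (((k + 2 : ℕ) : ℂ) * zh h ζ ^ (k + 2 - 1) * (-(h : ℂ) ^ 2 * zh h ζ))) ζ :=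
    ((zh_hasDerivAt (h := h) ζ).pow (k + 2)).const_mul c
  rw [h1.deriv]
  have : k + 2 - 1 = k + 1 := by omega
  rw [this]
  ring

lemma term_bound (k : ℕ) {ζ : ℂ} (hζ : 0 ≤ ζ.re) :
    ‖((al (qh lam h) k : ℝ) : ℂ) * zh h ζ ^ (k + 2)‖ ≤ al (qh lam h) k * (1 / 4) ^ k := by
  have h0 := al_nonneg (qh_pos (lam := lam) (h := h)).le k
  rw [norm_mul, norm_pow, Complex.norm_real, Real.norm_of_nonneg h0]
  refine mul_le_mul_of_nonneg_left ?_ h0
  have h1 := norm_zh_le (h := h) hζ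
  calc ‖zh h ζ‖ ^ (k + 2) ≤ (1 / 4) ^ (k + 2) := pow_le_pow_left₀ (norm_nonneg _) h1 _
    _ ≤ (1 / 4) ^ k := pow_le_pow_of_le_one (by norm_num) (by norm_num) (by omega)

lemma isOpen_half : IsOpen {ζ : ℂ | 0 < ζ.re} := isOpen_lt continuous_const Complex.continuous_re

lemma Fh_differentiableOn (hl : 0 ≤ lam) (hh : 0 < h) :
    DifferentiableOn ℂ (Fh lam h) {ζ : ℂ | 0 < ζ.re} := by
  refine Complex.differentiableOn_tsum_of_summable_norm
    (summable_al (qh_pos (lam := lam) (h := h)).le (qh_le_one hl hh)) ?_ isOpen_half ?_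
  · intro k
    exact (((zh_differentiable (h := h)).pow (k + 2)).const_mul _).differentiableOn
  · intro k ζ hζ
    exact term_bound k (le_of_lt hζ)

lemma deriv_Fh (hl : 0 ≤ lam) (hh : 0 < h) {ζ : ℂ} (hζ : 0 < ζ.re) :
    HasSum (fun k : ℕ => -(h : ℂ) ^ 2 * (((k + 2 : ℕ) : ℂ) * ((al (qh lam h) k : ℝ) : ℂ)
      * zh h ζ ^ (k + 2))) (deriv (Fh lam h) ζ) := by
  have h1 := Complex.hasSum_deriv_of_summable_norm
    (F := fun (k : ℕ) (ζ : ℂ) => ((al (qh lam h) k : ℝ) : ℂ) * zh h ζ ^ (k + 2))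
    (summable_al (qh_pos (lam := lam) (h := h)).le (qh_le_one hl hh))
    (fun k => (((zh_differentiable (h := h)).pow (k + 2)).const_mul _).differentiableOn)
    isOpen_half (fun k ζ hζ => term_bound k (le_of_lt hζ)) (z := ζ) hζ
  have h2 : (fun k : ℕ => deriv (fun ζ => ((al (qh lam h) k : ℝ) : ℂ) * zh h ζ ^ (k + 2)) ζ) =
      fun k : ℕ => -(h : ℂ) ^ 2 * (((k + 2 : ℕ) : ℂ) * ((al (qh lam h) k : ℝ) : ℂ)
      * zh h ζ ^ (k + 2)) := by
    ext k
    rw [deriv_term]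
  rw [h2] at h1
  exact h1

lemma summable_marked (hl : 0 ≤ lam) (hh : 0 < h) {ζ : ℂ} (hζ : 0 < ζ.re) :
    Summable fun k : ℕ => ‖((k + 2 : ℕ) : ℂ) * ((al (qh lam h) k : ℝ) : ℂ) * zh h ζ ^ (k + 2)‖ := by
  have hq0 := (qh_pos (lam := lam) (h := h)).le
  have hs := (summable_al hq0 (qh_le_one hl hh)).mul_left (1 / (ζ.re * h ^ 2))
  refine hs.of_nonneg_of_le (fun k => norm_nonneg _) (fun k => ?_)
  have h0 := al_nonneg hq0 k
  rw [norm_mul, norm_mul, norm_pow, Complex.norm_real, Real.norm_of_nonneg h0, norm_zh, xh_pow,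
    Complex.norm_natCast]
  have hpos : 0 < ζ.re * h ^ 2 := by positivity
  have h1 : ((k + 2 : ℕ) : ℝ) * Real.exp (-(((k + 2 : ℕ) : ℝ) * (ζ.re * h ^ 2))) ≤
      1 / (ζ.re * h ^ 2) := by
    have h2 := mul_exp_le (x := ((k + 2 : ℕ) : ℝ) * (ζ.re * h ^ 2))
    rw [le_div_iff₀ hpos]
    have h3 := Real.exp_pos (-(((k + 2 : ℕ) : ℝ) * (ζ.re * h ^ 2)))
    nlinarith
  have h2 : (1 / 4 : ℝ) ^ (k + 2) ≤ (1 / 4) ^ k :=
    pow_le_pow_of_le_one (by norm_num) (by norm_num) (by omega)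
  have h3 : 0 ≤ ((k + 2 : ℕ) : ℝ) * Real.exp (-(((k + 2 : ℕ) : ℝ) * (ζ.re * h ^ 2))) := by positivity
  calc ((k + 2 : ℕ) : ℝ) * al (qh lam h) k * ((1 / 4) ^ (k + 2)
        * Real.exp (-(((k + 2 : ℕ) : ℝ) * (ζ.re * h ^ 2))))
      = (al (qh lam h) k * (1 / 4) ^ (k + 2)) * (((k + 2 : ℕ) : ℝ)
        * Real.exp (-(((k + 2 : ℕ) : ℝ) * (ζ.re * h ^ 2)))) := by ring
    _ ≤ (al (qh lam h) k * (1 / 4) ^ k) * (1 / (ζ.re * h ^ 2)) :=
        mul_le_mul (mul_le_mul_of_nonneg_left h2 h0) h1 h3 (by positivity)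
    _ = _ := by ring

/-- the marked generating function of the exact coefficients -/
lemma sgf_ce (hl : 0 ≤ lam) (hh : 0 < h) {ζ : ℂ} (hζ : 0 < ζ.re) :
    (h : ℂ) * sgf 1 (ce (qh lam h)) (zh h ζ) = -deriv (Jh lam h) ζ := by
  have hh0 : (h : ℂ) ≠ 0 := by exact_mod_cast hh.ne'
  have hd : DifferentiableAt ℂ (Fh lam h) ζ :=
    (Fh_differentiableOn hl hh).differentiableAt (isOpen_half.mem_nhds hζ)
  have h1 : deriv (Jh lam h) ζ = deriv (Fh lam h) ζ / (h : ℂ) := by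
    unfold Jh
    rw [deriv_div_const, deriv_sub_const]
  have h2 : sgf 1 (ce (qh lam h)) (zh h ζ) =
      ∑' k : ℕ, ((k + 2 : ℕ) : ℂ) * ((al (qh lam h) k : ℝ) : ℂ) * zh h ζ ^ (k + 2) := by
    unfold sgf
    have hs : Summable fun n : ℕ => ((n : ℂ)) ^ 1 * ((ce (qh lam h) n : ℝ) : ℂ) * zh h ζ ^ n := by
      rw [← summable_nat_add_iff 2]
      refine (summable_marked hl hh hζ).of_norm.congr fun k => ?_
      simp only [ce, pow_one]
    rw [← hs.sum_add_tsum_nat_add 2]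
    simp only [sum_range_succ, sum_range_zero, ce, Complex.ofReal_zero, mul_zero, zero_mul, zero_add,
      add_zero, pow_one]
  rw [h1, h2, ← (deriv_Fh hl hh hζ).tsum_eq, tsum_mul_left]
  field_simp

lemma norm_Jh_le (hl : 0 ≤ lam) (hh : 0 < h) (hh1 : h ≤ 1) {M : ℝ} {ζ : ℂ} (hζ : 0 ≤ ζ.re)
    (hM : ‖ζ‖ ≤ M) : ‖Jh lam h ζ‖ ≤ M + 4 * Real.sqrt (M + (3 * lam + 1)) := by
  have hM0 : 0 ≤ M := (norm_nonneg _).trans hM
  rw [Jh_eq hh ζ]
  refine (norm_sub_le _ _).trans ?_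
  have hre : 0 ≤ (2 * ζ * (h : ℂ) ^ 2).re := by
    rw [show 2 * ζ * (h : ℂ) ^ 2 = ((2 * h ^ 2 : ℝ) : ℂ) * ζ by push_cast; ring,
      Complex.re_ofReal_mul]
    positivity
  have hn : ‖2 * ζ * (h : ℂ) ^ 2‖ ≤ 2 * M * h ^ 2 := by
    rw [norm_mul, norm_mul, norm_pow, Complex.norm_real, Real.norm_of_nonneg hh.le]
    have e2 : ‖(2 : ℂ)‖ = 2 := by norm_num
    rw [e2]
    have := mul_le_mul_of_nonneg_right hM (sq_nonneg h)
    nlinarith
  have e1 : ‖(Complex.exp (-(2 * ζ * (h : ℂ) ^ 2)) - 1) / (4 * h)‖ ≤ M := by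
    rw [norm_div, norm_mul, Complex.norm_real, Real.norm_of_nonneg hh.le]
    have e4 : ‖(4 : ℂ)‖ = 4 := by norm_num
    rw [e4, div_le_iff₀ (by positivity)]
    refine (norm_exp_neg_sub_one_le hre).trans (hn.trans ?_)
    have : h ^ 2 ≤ h := by nlinarith
    nlinarith
  have e2 : ‖Complex.exp (-(2 * ζ * (h : ℂ) ^ 2)) * Ps lam h ζ / 2‖ ≤
      4 * Real.sqrt (M + (3 * lam + 1)) := by
    rw [norm_div, norm_mul]
    have h2 : ‖(2 : ℂ)‖ = 2 := by norm_num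
    rw [h2]
    have h3 : ‖Complex.exp (-(2 * ζ * (h : ℂ) ^ 2))‖ ≤ 1 := by
      rw [Complex.norm_exp, Complex.neg_re, Real.exp_le_one_iff]
      linarith
    have h4 := norm_Ps_le_of hl hh hh1 hζ hM
    have h5 := mul_le_mul h3 h4 (norm_nonneg _) zero_le_one
    have h6 : 0 ≤ Real.sqrt (M + (3 * lam + 1)) := Real.sqrt_nonneg _
    linarith
  linarith

end

/-- convergence of the rescaled marked generating function of the exact coefficients -/
lemma tendsto_exact {lam : ℝ} (hl : 0 ≤ lam) {hn : ℕ → ℝ} (h0 : ∀ n, 0 < hn n)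
    (h1 : ∀ n, hn n ≤ 1) (hlim : Tendsto hn atTop (𝓝 0)) {w : ℂ} (hw : 0 < w.re) :
    ∃ l : ℂ, Tendsto (fun n => (hn n : ℂ) * sgf 1 (ce (qh lam (hn n))) (zh (hn n) w)) atTop
      (𝓝 l) := by
  have hhalf : ∀ ζ ∈ Metric.closedBall w (w.re / 2), 0 < ζ.re := by
    intro ζ hζ
    rw [mem_closedBall_iff_norm] at hζ
    have h2 := (Complex.abs_re_le_norm (ζ - w)).trans hζ
    rw [Complex.sub_re, abs_le] at h2
    linarith [h2.1]
  have hJ : ∀ ζ : ℂ, 0 < ζ.re → ∃ a : ℂ, Tendsto (fun n => Jh lam (hn n) ζ) atTop (𝓝 a) := by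
    intro ζ hζ
    obtain ⟨a, ha⟩ := tendsto_Ps hl h0 h1 hlim hζ
    have hc : Tendsto (fun n => ((hn n : ℝ) : ℂ)) atTop (𝓝 ((0 : ℝ) : ℂ)) :=
      (Complex.continuous_ofReal.tendsto 0).comp hlim
    have he : Tendsto (fun n => Complex.exp (-(2 * ζ * ((hn n : ℝ) : ℂ) ^ 2))) atTop (𝓝 1) := by
      have h2 : Tendsto (fun n => -(2 * ζ * ((hn n : ℝ) : ℂ) ^ 2)) atTop
          (𝓝 (-(2 * ζ * ((0 : ℝ) : ℂ) ^ 2))) := (tendsto_const_nhds.mul (hc.pow 2)).neg
      have h3 : Tendsto (fun n => Complex.exp (-(2 * ζ * ((hn n : ℝ) : ℂ) ^ 2))) atTop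
          (𝓝 (Complex.exp (-(2 * ζ * ((0 : ℝ) : ℂ) ^ 2)))) :=
        (Complex.continuous_exp.tendsto _).comp h2
      have e0 : Complex.exp (-(2 * ζ * ((0 : ℝ) : ℂ) ^ 2)) = 1 := by simp
      rwa [e0] at h3
    have ht : Tendsto (fun n => (Complex.exp (-(2 * ζ * ((hn n : ℝ) : ℂ) ^ 2)) - 1)
        / (4 * ((hn n : ℝ) : ℂ))) atTop (𝓝 0) := by
      refine squeeze_zero_norm (a := fun n => ‖ζ‖ * hn n) (fun n => ?_) ?_
      · have hre : 0 ≤ (2 * ζ * ((hn n : ℝ) : ℂ) ^ 2).re := by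
          rw [show 2 * ζ * ((hn n : ℝ) : ℂ) ^ 2 = ((2 * hn n ^ 2 : ℝ) : ℂ) * ζ by push_cast; ring,
            Complex.re_ofReal_mul]
          positivity
        rw [norm_div, norm_mul, Complex.norm_real, Real.norm_of_nonneg (h0 n).le]
        have e4 : ‖(4 : ℂ)‖ = 4 := by norm_num
        rw [e4, div_le_iff₀ (by linarith [h0 n])]
        refine (norm_exp_neg_sub_one_le hre).trans ?_
        rw [norm_mul, norm_mul, norm_pow, Complex.norm_real, Real.norm_of_nonneg (h0 n).le]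
        have e2 : ‖(2 : ℂ)‖ = 2 := by norm_num
        rw [e2]
        have : 0 ≤ ‖ζ‖ * hn n ^ 2 := by positivity
        nlinarith
      · have := hlim.const_mul ‖ζ‖
        rwa [mul_zero] at this
    refine ⟨0 - 1 * a / 2, ?_⟩
    have h5 := ht.sub ((he.mul ha).div_const 2)
    refine h5.congr fun n => ?_
    rw [Jh_eq (h0 n) ζ]
  have hJ' : ∀ ζ : ℂ, ∃ a : ℂ, 0 < ζ.re → Tendsto (fun n => Jh lam (hn n) ζ) atTop (𝓝 a) := by
    intro ζ
    by_cases hζ : 0 < ζ.re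
    · obtain ⟨a, ha⟩ := hJ ζ hζ
      exact ⟨a, fun _ => ha⟩
    · exact ⟨0, fun h => absurd h hζ⟩
  choose g hg using hJ'
  obtain ⟨l, hlm⟩ := tendsto_deriv_of_bounded (f := fun n => Jh lam (hn n)) (w := w)
    (r := w.re / 2) (M := (‖w‖ + w.re / 2) + 4 * Real.sqrt ((‖w‖ + w.re / 2) + (3 * lam + 1)))
    (by linarith)
    (fun n => by
      have h2 : DifferentiableOn ℂ (Jh lam (hn n)) {ζ : ℂ | 0 < ζ.re} := by
        unfold Jh
        exact ((Fh_differentiableOn hl (h0 n)).sub_const _).div_const _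
      exact h2.mono fun ζ hζ => hhalf ζ hζ)
    (fun n ζ hζ => by
      refine norm_Jh_le hl (h0 n) (h1 n) (hhalf ζ hζ).le ?_
      rw [mem_closedBall_iff_norm] at hζ
      have := norm_add_le (ζ - w) w
      rw [sub_add_cancel] at this
      linarith)
    (g := g) (fun ζ hζ => hg ζ (hhalf ζ (Metric.sphere_subset_closedBall hζ)))
  refine ⟨-l, ?_⟩
  refine hlm.neg.congr fun n => ?_
  rw [sgf_ce hl (h0 n) hw]

/-- truncation error -/
lemma trunc_err {lam h : ℝ} (hl : 0 ≤ lam) (hh : 0 < h) {w : ℂ} (hw : 0 < w.re) {N : ℕ} {c : ℕ → ℝ}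
    (c0 : c 0 = 0) (c1 : c 1 = 0) (hc : ∀ n, 0 ≤ c (n + 2) ∧ c (n + 2) ≤ al (qh lam h) n ∧
      (1 + n ≤ N → c (n + 2) = al (qh lam h) n)) :
    ‖sgf 1 (ce (qh lam h)) (zh h w) - sgf 1 c (zh h w)‖ ≤
      8 / (w.re * h ^ 2) * Real.exp (-((N : ℝ) * (w.re * h ^ 2) / 2)) := by
  have hq0 := (qh_pos (lam := lam) (h := h)).le
  have hq1 := qh_le_one hl hh
  have hpos : 0 < w.re * h ^ 2 := by positivity
  have hsm := summable_marked hl hh hw
  have hsc : Summable fun k : ℕ => ‖((k + 2 : ℕ) : ℂ) * ((c (k + 2) : ℝ) : ℂ) * zh h w ^ (k + 2)‖ := by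
    refine hsm.of_nonneg_of_le (fun k => norm_nonneg _) (fun k => ?_)
    rw [norm_mul, norm_mul, norm_mul, norm_mul, Complex.norm_real, Complex.norm_real,
      Real.norm_of_nonneg (hc k).1, Real.norm_of_nonneg (al_nonneg hq0 k)]
    exact mul_le_mul_of_nonneg_right (mul_le_mul_of_nonneg_left (hc k).2.1 (norm_nonneg _))
      (norm_nonneg _)
  have e1 : sgf 1 (ce (qh lam h)) (zh h w) =
      ∑' k : ℕ, ((k + 2 : ℕ) : ℂ) * ((al (qh lam h) k : ℝ) : ℂ) * zh h w ^ (k + 2) := by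
    unfold sgf
    have hs : Summable fun n : ℕ => ((n : ℂ)) ^ 1 * ((ce (qh lam h) n : ℝ) : ℂ) * zh h w ^ n := by
      rw [← summable_nat_add_iff 2]
      refine hsm.of_norm.congr fun k => ?_
      simp only [ce, pow_one]
    rw [← hs.sum_add_tsum_nat_add 2]
    simp only [sum_range_succ, sum_range_zero, ce, Complex.ofReal_zero, mul_zero, zero_mul, zero_add,
      add_zero, pow_one]
  have e2 : sgf 1 c (zh h w) =
      ∑' k : ℕ, ((k + 2 : ℕ) : ℂ) * ((c (k + 2) : ℝ) : ℂ) * zh h w ^ (k + 2) := by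
    unfold sgf
    have hs : Summable fun n : ℕ => ((n : ℂ)) ^ 1 * ((c n : ℝ) : ℂ) * zh h w ^ n := by
      rw [← summable_nat_add_iff 2]
      refine hsc.of_norm.congr fun k => ?_
      simp only [pow_one]
    rw [← hs.sum_add_tsum_nat_add 2]
    simp only [sum_range_succ, sum_range_zero, c0, c1, Complex.ofReal_zero, mul_zero, zero_mul,
      zero_add, add_zero, pow_one]
  rw [e1, e2, ← hsm.of_norm.tsum_sub hsc.of_norm]
  have hb : ∀ k : ℕ, ‖((k + 2 : ℕ) : ℂ) * ((al (qh lam h) k : ℝ) : ℂ) * zh h w ^ (k + 2) -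
      ((k + 2 : ℕ) : ℂ) * ((c (k + 2) : ℝ) : ℂ) * zh h w ^ (k + 2)‖ ≤
      (2 / (w.re * h ^ 2) * Real.exp (-((N : ℝ) * (w.re * h ^ 2) / 2))) *
        (al (qh lam h) k * (1 / 4) ^ k) := by
    intro k
    have h0 := al_nonneg hq0 k
    by_cases hk : 1 + k ≤ N
    · rw [(hc k).2.2 hk, sub_self, norm_zero]
      positivity
    · push Not at hk
      have e3 : ((k + 2 : ℕ) : ℂ) * ((al (qh lam h) k : ℝ) : ℂ) * zh h w ^ (k + 2) -
          ((k + 2 : ℕ) : ℂ) * ((c (k + 2) : ℝ) : ℂ) * zh h w ^ (k + 2) =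
          ((k + 2 : ℕ) : ℂ) * ((al (qh lam h) k - c (k + 2) : ℝ) : ℂ) * zh h w ^ (k + 2) := by
        push_cast; ring
      rw [e3, norm_mul, norm_mul, norm_pow, Complex.norm_real, Complex.norm_natCast, norm_zh, xh_pow,
        Real.norm_of_nonneg (by linarith [(hc k).2.1])]
      have f1 : al (qh lam h) k - c (k + 2) ≤ al (qh lam h) k := by linarith [(hc k).1]
      have f2 : (1 / 4 : ℝ) ^ (k + 2) ≤ (1 / 4) ^ k :=
        pow_le_pow_of_le_one (by norm_num) (by norm_num) (by omega)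
      set y : ℝ := ((k + 2 : ℕ) : ℝ) * (w.re * h ^ 2) with hy
      have hy0 : 0 < y := by positivity
      have f3 : ((k + 2 : ℕ) : ℝ) * Real.exp (-y) ≤
          2 / (w.re * h ^ 2) * Real.exp (-((N : ℝ) * (w.re * h ^ 2) / 2)) := by
        have g1 := mul_exp_le (x := y / 2)
        have g2 : y / 2 * Real.exp (-(y / 2)) ≤ 1 := by
          linarith [Real.exp_pos (-(y / 2))]
        have g3 : Real.exp (-y) = Real.exp (-(y / 2)) * Real.exp (-(y / 2)) := by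
          rw [← Real.exp_add]; congr 1; ring
        have g4 : Real.exp (-(y / 2)) ≤ Real.exp (-((N : ℝ) * (w.re * h ^ 2) / 2)) := by
          rw [Real.exp_le_exp]
          have : (N : ℝ) ≤ ((k + 2 : ℕ) : ℝ) := by exact_mod_cast (by omega : N ≤ k + 2)
          have := mul_le_mul_of_nonneg_right this hpos.le
          rw [hy]
          linarith
        have g5 : ((k + 2 : ℕ) : ℝ) = 2 / (w.re * h ^ 2) * (y / 2) := by
          rw [hy]; field_simp
        rw [g3, g5]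
        calc 2 / (w.re * h ^ 2) * (y / 2) * (Real.exp (-(y / 2)) * Real.exp (-(y / 2)))
            = 2 / (w.re * h ^ 2) * ((y / 2 * Real.exp (-(y / 2))) * Real.exp (-(y / 2))) := by ring
          _ ≤ 2 / (w.re * h ^ 2) * (1 * Real.exp (-((N : ℝ) * (w.re * h ^ 2) / 2))) := by
              refine mul_le_mul_of_nonneg_left ?_ (by positivity)
              exact mul_le_mul g2 g4 (Real.exp_pos _).le zero_le_one
          _ = _ := by ring
      have f4 : (al (qh lam h) k - c (k + 2)) * (1 / 4 : ℝ) ^ (k + 2) ≤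
          al (qh lam h) k * (1 / 4) ^ k :=
        mul_le_mul f1 f2 (by positivity) h0
      calc ((k + 2 : ℕ) : ℝ) * (al (qh lam h) k - c (k + 2)) * ((1 / 4) ^ (k + 2) * Real.exp (-y))
          = (((k + 2 : ℕ) : ℝ) * Real.exp (-y)) * ((al (qh lam h) k - c (k + 2)) * (1 / 4) ^ (k + 2)) := by
            ring
        _ ≤ _ := mul_le_mul f3 f4 (by have := (hc k).2.1; have : 0 ≤ al (qh lam h) k - c (k + 2) := by linarith
                                      positivity) (by positivity)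
  have hs := (summable_al hq0 hq1).mul_left
    (2 / (w.re * h ^ 2) * Real.exp (-((N : ℝ) * (w.re * h ^ 2) / 2)))
  refine (tsum_of_norm_bounded hs.hasSum hb).trans ?_
  rw [tsum_mul_left]
  have h4 := tsum_al_le hq0 hq1
  have h5 : 0 ≤ 2 / (w.re * h ^ 2) * Real.exp (-((N : ℝ) * (w.re * h ^ 2) / 2)) := by positivity
  calc _ ≤ 2 / (w.re * h ^ 2) * Real.exp (-((N : ℝ) * (w.re * h ^ 2) / 2)) * 4 :=
        mul_le_mul_of_nonneg_left h4 h5
    _ = _ := by ring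

end St

open St in
/-- **Module LIM2.** -/
theorem LIM2 : LIM2_Stmt := by
  intro lam w hl hw N hN b hb
  set hn : ℕ → ℝ := fun n => 1 / Real.sqrt ((n : ℝ) + 1) with hhn
  have h0 : ∀ n, 0 < hn n := fun n => by rw [hhn]; positivity
  have h1 : ∀ n, hn n ≤ 1 := fun n => by
    rw [hhn]
    show 1 / Real.sqrt ((n : ℝ) + 1) ≤ 1
    rw [div_le_one (by positivity), Real.one_le_sqrt]
    linarith [Nat.cast_nonneg (α := ℝ) n]
  have hsq : ∀ n, hn n ^ 2 = 1 / ((n : ℝ) + 1) := fun n => by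
    rw [hhn]
    show (1 / Real.sqrt ((n : ℝ) + 1)) ^ 2 = _
    rw [div_pow, one_pow, Real.sq_sqrt (by positivity)]
  have hlim : Tendsto hn atTop (𝓝 0) := by
    have h2 : Tendsto (fun n : ℕ => Real.sqrt ((n : ℝ) + 1)) atTop atTop :=
      Real.tendsto_sqrt_atTop.comp
        (tendsto_atTop_add_const_right _ _ tendsto_natCast_atTop_atTop)
    exact (tendsto_const_nhds (x := (1 : ℝ))).div_atTop h2
  obtain ⟨l, hlm⟩ := tendsto_exact hl h0 h1 hlim hw
  refine ⟨l, ?_⟩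
  rw [← tendsto_add_atTop_iff_nat 1]
  have hq : ∀ n, qh lam (hn n) = Real.exp (-(epsn lam (n + 1))) := by
    intro n
    unfold qh epsn
    congr 2
    have h3 : hn n ^ 3 = 1 / (((n + 1 : ℕ) : ℝ) * Real.sqrt ((n + 1 : ℕ) : ℝ)) := by
      rw [pow_succ, hsq, hhn]
      push_cast
      field_simp
    rw [h3]
    field_simp
  have hz : ∀ n, zh (hn n) w = zn (1 / 4) w (n + 1) := by
    intro n
    unfold zh zn
    rw [← Complex.ofReal_pow, hsq]
    push_cast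
    congr 2
    rw [div_eq_mul_one_div w]
  have hgoal : ∀ n : ℕ, sgf 1 (close 1 cap1 (b (n + 1))) (zn (1 / 4) w (n + 1))
      / ((Real.sqrt ((n + 1 : ℕ) : ℝ) : ℝ) : ℂ) =
      (hn n : ℂ) * sgf 1 (ce (qh lam (hn n))) (zh (hn n) w) -
      (hn n : ℂ) * (sgf 1 (ce (qh lam (hn n))) (zh (hn n) w) -
        sgf 1 (close 1 cap1 (b (n + 1))) (zh (hn n) w)) := by
    intro n
    rw [← hz, ← mul_sub, sub_sub_cancel, hhn]
    push_cast
    ring
  have herr : Tendsto (fun n : ℕ => (hn n : ℂ) * (sgf 1 (ce (qh lam (hn n))) (zh (hn n) w) -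
        sgf 1 (close 1 cap1 (b (n + 1))) (zh (hn n) w))) atTop (𝓝 0) := by
    refine squeeze_zero_norm (a := fun n : ℕ => 8 / w.re * (((n : ℝ) + 1) *
      Real.exp (-(2 * w.re * ((n : ℝ) + 1))))) (fun n => ?_) ?_
    · have hNn := hN (n + 1)
      have hN1 : 1 ≤ N (n + 1) := by
        have : 1 ≤ 4 * (n + 1) ^ 2 := by
          have : 1 ≤ (n + 1) ^ 2 := Nat.one_le_pow _ _ (by omega)
          omega
        omega
      have hcb := close_bounds (hb (n + 1)) hN1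
      rw [← hq n] at hcb
      have hte := trunc_err hl (h0 n) hw (N := N (n + 1)) close_zero (close_one (hb (n + 1))) hcb
      rw [norm_mul, Complex.norm_real, Real.norm_of_nonneg (h0 n).le]
      have hn1 : (0 : ℝ) < (n : ℝ) + 1 := by positivity
      refine (mul_le_mul (h1 n) hte (norm_nonneg _) zero_le_one).trans ?_
      rw [one_mul, hsq]
      have e1 : 8 / (w.re * (1 / ((n : ℝ) + 1))) = 8 / w.re * ((n : ℝ) + 1) := by field_simp
      rw [e1, mul_assoc]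
      refine mul_le_mul_of_nonneg_left ?_ (by positivity)
      refine mul_le_mul_of_nonneg_left ?_ hn1.le
      rw [Real.exp_le_exp]
      have h5 : (4 * ((n : ℝ) + 1) ^ 2) ≤ (N (n + 1) : ℝ) := by exact_mod_cast hNn
      have h6 : 2 * w.re * ((n : ℝ) + 1) = (4 * ((n : ℝ) + 1) ^ 2) * (w.re * (1 / ((n : ℝ) + 1))) / 2 := by
        field_simp
        ring
      rw [h6]
      have h7 : 0 ≤ w.re * (1 / ((n : ℝ) + 1)) := by positivity
      have := mul_le_mul_of_nonneg_right h5 h7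
      linarith
    · have h3 : Tendsto (fun x : ℝ => x * Real.exp (-(2 * w.re * x))) atTop (𝓝 0) := by
        have h4 := Real.tendsto_pow_mul_exp_neg_atTop_nhds_zero 1
        have h5 : Tendsto (fun x : ℝ => (2 * w.re) * x) atTop atTop :=
          tendsto_id.const_mul_atTop (by positivity)
        have h6 := (h4.comp h5).const_mul (1 / (2 * w.re))
        rw [mul_zero] at h6
        refine h6.congr fun x => ?_
        simp only [Function.comp, pow_one]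
        field_simp
      have h7 : Tendsto (fun n : ℕ => (n : ℝ) + 1) atTop atTop :=
        tendsto_atTop_add_const_right _ _ tendsto_natCast_atTop_atTop
      have h8 := (h3.comp h7).const_mul (8 / w.re)
      rw [mul_zero] at h8
      exact h8
  have hfin := hlm.sub herr
  rw [sub_zero] at hfin
  refine hfin.congr fun n => ?_
  exact (hgoal n).symm

end Pool.Agent.Gap
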