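import Mathlib

/-! MP_f6626d_co, module LIM, part 1: the generating function of lazy nearest neighbour walks on the
positive integers with area weights. -/

set_option autoImplicit false

open Finset Filter Topology

namespace Pool.Agent.Gap.St

/-- weights of lazy walks on the positive integers from `x` to `1` -/
def aw (q : ℝ) : ℕ → ℕ → ℝ
  | 0, x => if x = 1 then 1 else 0
  | _ + 1, 0 => 0
  | n + 1, x + 1 => 2 * q ^ (2 * x + 2) * aw q n (x + 1) + q ^ (2 * x + 3) * aw q n (x + 2)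
      + q ^ (2 * x + 1) * aw q n x

/-- weights of closed walks at 1 -/
def al (q : ℝ) (n : ℕ) : ℝ := aw q n 1

lemma aw_zero (q : ℝ) (n : ℕ) : aw q n 0 = 0 := by
  cases n <;> simp [aw]

lemma aw_succ (q : ℝ) (n x : ℕ) : aw q (n + 1) (x + 1) =
    2 * q ^ (2 * x + 2) * aw q n (x + 1) + q ^ (2 * x + 3) * aw q n (x + 2)
      + q ^ (2 * x + 1) * aw q n x := rfl

lemma aw_conv (q : ℝ) (n : ℕ) : ∀ x, aw q (n + 1) (x + 2) =
    ∑ k ∈ range (n + 1), q ^ (3 + 2 * k) * aw q k (x + 1) * al q (n - k) := by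
  induction n with
  | zero =>
    intro x
    rw [show x + 2 = (x + 1) + 1 from rfl, aw_succ]
    rcases x with _ | x
    · simp [aw, al]
    · simp [aw, al]
  | succ n ih =>
    intro x
    rw [show x + 2 = (x + 1) + 1 from rfl, aw_succ, sum_range_succ']
    have h1 : ∀ k ∈ range (n + 1), q ^ (3 + 2 * (k + 1)) * aw q (k + 1) (x + 1)
        * al q (n + 1 - (k + 1)) =
        2 * q ^ (2 * (x + 1) + 2) * (q ^ (3 + 2 * k) * aw q k (x + 1) * al q (n - k))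
        + q ^ (2 * (x + 1) + 3) * (q ^ (3 + 2 * k) * aw q k (x + 2) * al q (n - k))
        + q ^ (2 * (x + 1) + 1) * (q ^ (3 + 2 * k) * aw q k x * al q (n - k)) := by
      intro k _
      rw [aw_succ, show n + 1 - (k + 1) = n - k by omega]
      ring
    rw [sum_congr rfl h1, sum_add_distrib, sum_add_distrib, ← mul_sum, ← mul_sum, ← mul_sum,
      show x + 1 + 1 = x + 2 from rfl, show x + 1 + 2 = (x + 1) + 2 from rfl, ih x, ih (x + 1)]
    rcases x with _ | x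
    · simp only [aw_zero, mul_zero, zero_mul, sum_const_zero, add_zero, zero_add]
      simp [aw, al]
    · rw [show x + 1 + 1 = x + 2 from rfl, ih x]
      simp [aw]

lemma al_zero (q : ℝ) : al q 0 = 1 := by simp [al, aw]

lemma al_succ (q : ℝ) (n : ℕ) : al q (n + 1) = 2 * q ^ 2 * al q n + q ^ 3 * aw q n 2 := by
  show aw q (n + 1) (0 + 1) = _
  rw [aw_succ, aw_zero]
  simp [al]

lemma aw_nonneg {q : ℝ} (hq : 0 ≤ q) (n : ℕ) : ∀ x, 0 ≤ aw q n x := by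
  induction n with
  | zero => intro x; simp only [aw]; split_ifs <;> norm_num
  | succ n ih =>
    intro x
    rcases x with _ | x
    · rw [aw_zero]
    · rw [aw_succ]
      have := ih x; have := ih (x + 1); have := ih (x + 2)
      positivity

lemma aw_mono {q q' : ℝ} (hq : 0 ≤ q) (hqq : q ≤ q') (n : ℕ) : ∀ x, aw q n x ≤ aw q' n x := by
  induction n with
  | zero => intro x; exact le_rfl
  | succ n ih =>
    intro x
    rcases x with _ | x
    · rw [aw_zero, aw_zero]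
    · rw [aw_succ, aw_succ]
      have h0 := aw_nonneg hq n
      have h0' := aw_nonneg (hq.trans hqq) n
      have e1 : q ^ (2 * x + 2) ≤ q' ^ (2 * x + 2) := pow_le_pow_left₀ hq hqq _
      have e2 : q ^ (2 * x + 3) ≤ q' ^ (2 * x + 3) := pow_le_pow_left₀ hq hqq _
      have e3 : q ^ (2 * x + 1) ≤ q' ^ (2 * x + 1) := pow_le_pow_left₀ hq hqq _
      have f1 := mul_le_mul e1 (ih (x + 1)) (h0 _) (pow_nonneg (hq.trans hqq) _)
      have f2 := mul_le_mul e2 (ih (x + 2)) (h0 _) (pow_nonneg (hq.trans hqq) _)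
      have f3 := mul_le_mul e3 (ih x) (h0 _) (pow_nonneg (hq.trans hqq) _)
      nlinarith [f1, f2, f3]

lemma sum_aw_le {q : ℝ} (hq : 0 ≤ q) (hq1 : q ≤ 1) (N : ℕ) :
    ∀ x, ∑ n ∈ range N, aw q n x * (1 / 4) ^ n ≤ 4 := by
  induction N with
  | zero => intro x; simp
  | succ N ih =>
    intro x
    rcases x with _ | x
    · simp [aw_zero]
    · rw [sum_range_succ']
      have h0 := aw_nonneg hq
      have hS : ∀ y, 0 ≤ ∑ n ∈ range N, aw q n y * (1 / 4) ^ n := fun y =>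
        sum_nonneg fun n _ => mul_nonneg (h0 _ _) (by positivity)
      have e : ∑ k ∈ range N, aw q (k + 1) (x + 1) * (1 / 4) ^ (k + 1) =
          (1 / 4) * (2 * q ^ (2 * x + 2) * ∑ n ∈ range N, aw q n (x + 1) * (1 / 4) ^ n
          + q ^ (2 * x + 3) * ∑ n ∈ range N, aw q n (x + 2) * (1 / 4) ^ n
          + q ^ (2 * x + 1) * ∑ n ∈ range N, aw q n x * (1 / 4) ^ n) := by
        rw [mul_sum, mul_sum, mul_sum, ← sum_add_distrib, ← sum_add_distrib, mul_sum]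
        refine sum_congr rfl fun k _ => ?_
        rw [aw_succ]; ring
      rw [e]
      have p1 : q ^ (2 * x + 2) ≤ 1 := pow_le_one₀ hq hq1
      have p2 : q ^ (2 * x + 3) ≤ 1 := pow_le_one₀ hq hq1
      have p3 : q ^ (2 * x + 1) ≤ 1 := pow_le_one₀ hq hq1
      have g1 : q ^ (2 * x + 2) * ∑ n ∈ range N, aw q n (x + 1) * (1 / 4) ^ n ≤ 4 :=
        (mul_le_of_le_one_left (hS _) p1).trans (ih _)
      have g2 : q ^ (2 * x + 3) * ∑ n ∈ range N, aw q n (x + 2) * (1 / 4) ^ n ≤ 4 :=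
        (mul_le_of_le_one_left (hS _) p2).trans (ih _)
      rcases x with _ | x
      · have g3 : q ^ (2 * 0 + 1) * ∑ n ∈ range N, aw q n 0 * (1 / 4) ^ n = 0 := by
          simp [aw_zero]
        rw [g3]
        have : aw q 0 (0 + 1) = 1 := by simp [aw]
        rw [this]
        linarith
      · have g3 : q ^ (2 * (x + 1) + 1) * ∑ n ∈ range N, aw q n (x + 1) * (1 / 4) ^ n ≤ 4 :=
          (mul_le_of_le_one_left (hS _) p3).trans (ih _)
        have : aw q 0 (x + 1 + 1) = 0 := by simp [aw]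
        rw [this]
        linarith

section
variable {q : ℝ}

lemma summable_aw (hq : 0 ≤ q) (hq1 : q ≤ 1) (x : ℕ) :
    Summable fun n => aw q n x * (1 / 4) ^ n :=
  summable_of_sum_range_le (fun n => mul_nonneg (aw_nonneg hq _ _) (by positivity))
    (fun N => sum_aw_le hq hq1 N x)

lemma al_nonneg (hq : 0 ≤ q) (n : ℕ) : 0 ≤ al q n := aw_nonneg hq n 1

lemma summable_al (hq : 0 ≤ q) (hq1 : q ≤ 1) : Summable fun n => al q n * (1 / 4) ^ n :=
  summable_aw hq hq1 1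

lemma tsum_al_le (hq : 0 ≤ q) (hq1 : q ≤ 1) : ∑' n, al q n * (1 / 4) ^ n ≤ 4 :=
  (summable_al hq hq1).tsum_le_of_sum_range_le (fun N => sum_aw_le hq hq1 N 1)

/-- summability of the complex series -/
lemma summable_norm_aw (hq : 0 ≤ q) (hq1 : q ≤ 1) (x : ℕ) {z : ℂ} (hz : ‖z‖ ≤ 1 / 4) :
    Summable fun n => ‖((aw q n x : ℝ) : ℂ) * z ^ n‖ := by
  refine (summable_aw hq hq1 x).of_nonneg_of_le (fun n => norm_nonneg _) (fun n => ?_)
  rw [norm_mul, norm_pow, Complex.norm_real, Real.norm_of_nonneg (aw_nonneg hq _ _)]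
  exact mul_le_mul_of_nonneg_left (pow_le_pow_left₀ (norm_nonneg _) hz _) (aw_nonneg hq _ _)

lemma summable_norm_al (hq : 0 ≤ q) (hq1 : q ≤ 1) {z : ℂ} (hz : ‖z‖ ≤ 1 / 4) :
    Summable fun n => ‖((al q n : ℝ) : ℂ) * z ^ n‖ := summable_norm_aw hq hq1 1 hz

/-- the generating function of closed walks -/
noncomputable def Rf (q : ℝ) (z : ℂ) : ℂ := ∑' n, ((al q n : ℝ) : ℂ) * z ^ n

/-- the generating function of closed walks, real version -/
noncomputable def Rr (q : ℝ) (x : ℝ) : ℝ := ∑' n, al q n * x ^ n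

lemma Rf_ofReal (x : ℝ) : Rf q (x : ℂ) = ((Rr q x : ℝ) : ℂ) := by
  unfold Rf Rr
  rw [Complex.ofReal_tsum]
  refine tsum_congr fun n => ?_
  push_cast
  rfl

lemma Rf_eq (hq : 0 ≤ q) (hq1 : q ≤ 1) {z : ℂ} (hz : ‖z‖ ≤ 1 / 4) :
    Rf q z = 1 + 2 * (q : ℂ) ^ 2 * z * Rf q z
      + (q : ℂ) ^ 6 * z ^ 2 * Rf q ((q : ℂ) ^ 2 * z) * Rf q z := by
  have hs1 : Summable fun n => ((aw q n 1 : ℝ) : ℂ) * z ^ n := (summable_norm_aw hq hq1 1 hz).of_norm
  have hs2 : Summable fun n => ((aw q n 2 : ℝ) : ℂ) * z ^ n := (summable_norm_aw hq hq1 2 hz).of_norm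
  have hz' : ‖(q : ℂ) ^ 2 * z‖ ≤ 1 / 4 := by
    rw [norm_mul, norm_pow, Complex.norm_real, Real.norm_of_nonneg hq]
    exact (mul_le_of_le_one_left (norm_nonneg _) (pow_le_one₀ hq hq1)).trans hz
  have E1 : Rf q z = 1 + (2 * (q : ℂ) ^ 2 * z * Rf q z
      + (q : ℂ) ^ 3 * z * ∑' n, ((aw q n 2 : ℝ) : ℂ) * z ^ n) := by
    have h1 := hs1.tsum_eq_zero_add
    have h3 : Summable fun n => 2 * (q : ℂ) ^ 2 * z * (((al q n : ℝ) : ℂ) * z ^ n) :=
      hs1.mul_left _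
    have h4 : Summable fun n => (q : ℂ) ^ 3 * z * (((aw q n 2 : ℝ) : ℂ) * z ^ n) :=
      hs2.mul_left _
    have h5 : 2 * (q : ℂ) ^ 2 * z * Rf q z + (q : ℂ) ^ 3 * z * ∑' n, ((aw q n 2 : ℝ) : ℂ) * z ^ n =
        ∑' n, ((al q (n + 1) : ℝ) : ℂ) * z ^ (n + 1) := by
      unfold Rf
      rw [← tsum_mul_left, ← tsum_mul_left, ← h3.tsum_add h4]
      refine tsum_congr fun n => ?_
      rw [al_succ q n]
      push_cast
      ring
    rw [h5]
    refine Eq.trans h1 ?_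
    congr 1
    simp [aw]
  have E2 : ∑' n, ((aw q n 2 : ℝ) : ℂ) * z ^ n =
      (q : ℂ) ^ 3 * z * (Rf q ((q : ℂ) ^ 2 * z) * Rf q z) := by
    rw [hs2.tsum_eq_zero_add]
    unfold Rf
    rw [tsum_mul_tsum_eq_tsum_sum_range_of_summable_norm (summable_norm_al hq hq1 hz')
      (summable_norm_al hq hq1 hz), ← tsum_mul_left]
    have h0 : ((aw q 0 2 : ℝ) : ℂ) * z ^ 0 = 0 := by simp [aw]
    rw [h0, zero_add]
    refine tsum_congr fun n => ?_
    rw [show (2 : ℕ) = 0 + 2 from rfl, aw_conv q n 0, mul_sum]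
    push_cast
    rw [sum_mul]
    refine sum_congr rfl fun k hk => ?_
    have hk' : k ≤ n := by have := mem_range.1 hk; omega
    have e : z ^ (n + 1) = z * (z ^ k * z ^ (n - k)) := by
      rw [← pow_add, Nat.add_sub_cancel' hk', pow_succ]; ring
    rw [e]
    simp only [al]
    rw [mul_pow, ← pow_mul, pow_add]
    ring
  rw [E2] at E1
  calc Rf q z = _ := E1
    _ = _ := by ring

lemma norm_Rf_le_Rr (hq : 0 ≤ q) (hq1 : q ≤ 1) {z : ℂ} (hz : ‖z‖ ≤ 1 / 4) :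
    ‖Rf q z‖ ≤ Rr q ‖z‖ := by
  unfold Rf Rr
  refine (norm_tsum_le_tsum_norm (summable_norm_al hq hq1 hz)).trans (le_of_eq ?_)
  refine tsum_congr fun n => ?_
  rw [norm_mul, norm_pow, Complex.norm_real, Real.norm_of_nonneg (al_nonneg hq _)]

lemma summable_Rr (hq : 0 ≤ q) (hq1 : q ≤ 1) {x : ℝ} (hx0 : 0 ≤ x) (hx : x ≤ 1 / 4) :
    Summable fun n => al q n * x ^ n :=
  (summable_al hq hq1).of_nonneg_of_le (fun n => mul_nonneg (al_nonneg hq _) (by positivity))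
    (fun n => mul_le_mul_of_nonneg_left (pow_le_pow_left₀ hx0 hx _) (al_nonneg hq _))

lemma Rr_mono (hq : 0 ≤ q) (hq1 : q ≤ 1) {x y : ℝ} (hx0 : 0 ≤ x) (hxy : x ≤ y) (hy : y ≤ 1 / 4) :
    Rr q x ≤ Rr q y :=
  (summable_Rr hq hq1 hx0 (hxy.trans hy)).tsum_le_tsum
    (fun n => mul_le_mul_of_nonneg_left (pow_le_pow_left₀ hx0 hxy _) (al_nonneg hq _))
    (summable_Rr hq hq1 (hx0.trans hxy) hy)

lemma Rr_mono_q {q' : ℝ} (hq : 0 ≤ q) (hqq : q ≤ q') (hq1 : q' ≤ 1) {x : ℝ} (hx0 : 0 ≤ x)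
    (hx : x ≤ 1 / 4) : Rr q x ≤ Rr q' x :=
  (summable_Rr hq (hqq.trans hq1) hx0 hx).tsum_le_tsum
    (fun n => mul_le_mul_of_nonneg_right (aw_mono hq hqq _ _) (by positivity))
    (summable_Rr (hq.trans hqq) hq1 hx0 hx)

lemma Rr_le_four (hq : 0 ≤ q) (hq1 : q ≤ 1) {x : ℝ} (hx0 : 0 ≤ x) (hx : x ≤ 1 / 4) :
    Rr q x ≤ 4 :=
  (Rr_mono hq hq1 hx0 hx le_rfl).trans (tsum_al_le hq hq1)

lemma one_le_Rr (hq : 0 ≤ q) (hq1 : q ≤ 1) {x : ℝ} (hx0 : 0 ≤ x) (hx : x ≤ 1 / 4) :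
    1 ≤ Rr q x := by
  unfold Rr
  have h := (summable_Rr hq hq1 hx0 hx).sum_le_tsum {0}
    (fun n _ => mul_nonneg (al_nonneg hq _) (by positivity))
  simpa [al_zero] using h

lemma norm_Rf_le_four (hq : 0 ≤ q) (hq1 : q ≤ 1) {z : ℂ} (hz : ‖z‖ ≤ 1 / 4) : ‖Rf q z‖ ≤ 4 :=
  (norm_Rf_le_Rr hq hq1 hz).trans (Rr_le_four hq hq1 (norm_nonneg _) hz)

lemma Rr_eq (hq : 0 ≤ q) (hq1 : q ≤ 1) {x : ℝ} (hx0 : 0 ≤ x) (hx : x ≤ 1 / 4) :
    Rr q x = 1 + 2 * q ^ 2 * x * Rr q x + q ^ 6 * x ^ 2 * Rr q (q ^ 2 * x) * Rr q x := by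
  have hz : ‖(x : ℂ)‖ ≤ 1 / 4 := by rw [Complex.norm_real, Real.norm_of_nonneg hx0]; exact hx
  have h := Rf_eq hq hq1 hz
  rw [Rf_ofReal, show (q : ℂ) ^ 2 * (x : ℂ) = ((q ^ 2 * x : ℝ) : ℂ) by push_cast; rfl,
    Rf_ofReal] at h
  exact_mod_cast h

/-- lower bound of `4 - R` at `q = 1` -/
lemma four_sub_Rr_one {x : ℝ} (hx0 : 0 ≤ x) (hx : x ≤ 1 / 4) :
    2 * Real.sqrt (1 - 4 * x) ≤ 4 - Rr 1 x := by
  have h := Rr_eq (q := 1) zero_le_one le_rfl hx0 hx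
  have h1 := one_le_Rr (q := 1) zero_le_one le_rfl hx0 hx
  have h4 := Rr_le_four (q := 1) zero_le_one le_rfl hx0 hx
  simp only [one_pow, one_mul, mul_one] at h
  set y := 4 - Rr 1 x with hy
  have hR : Rr 1 x = 4 - y := by rw [hy]; ring
  rw [hR] at h h1 h4
  have hε : 0 ≤ 1 - 4 * x := by linarith
  have key : x ^ 2 * y ^ 2 + y * ((1 - 4 * x) * (1 + 2 * x)) = (1 - 4 * x) * (3 + 4 * x) := by
    linear_combination (-1 : ℝ) * h
  have hy0 : 0 ≤ y := by linarith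
  by_cases h2 : 2 ≤ y
  · have : Real.sqrt (1 - 4 * x) ≤ 1 := by
      rw [Real.sqrt_le_one]
      linarith
    linarith
  · push Not at h2
    have h3 : (1 - 4 * x) ≤ x ^ 2 * y ^ 2 := by
      have : y * (1 + 2 * x) ≤ 2 + 4 * x := by nlinarith
      nlinarith [mul_nonneg hε (show (0 : ℝ) ≤ 2 + 4 * x - y * (1 + 2 * x) by linarith)]
    have h5 : Real.sqrt (1 - 4 * x) ≤ x * y := by
      rw [Real.sqrt_le_left (by positivity)]
      calc 1 - 4 * x ≤ x ^ 2 * y ^ 2 := h3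
        _ = (x * y) ^ 2 := by ring
    nlinarith

end

end Pool.Agent.Gap.St
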