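import Pool.Agent.Lib_helper73.Gap.St1

/-! MP_f6626d_co, module LIM, part 2: uniform estimates of the rescaled function `Ps`. -/

set_option autoImplicit false

open Finset Filter Topology

namespace Pool.Agent.Gap.St

lemma norm_exp_sub_exp_le {a b : ℂ} {m : ℝ} (ha : m ≤ a.re) (hb : m ≤ b.re) :
    ‖Complex.exp (-a) - Complex.exp (-b)‖ ≤ Real.exp (-m) * ‖a - b‖ := by
  have hconv : Convex ℝ {z : ℂ | z.re ≤ -m} := convex_halfSpace_re_le (-m)
  have h := hconv.norm_image_sub_le_of_norm_deriv_le (f := Complex.exp) (C := Real.exp (-m))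
    (x := -b) (y := -a) (fun x _ => Complex.differentiable_exp x) (fun x hx => by
      rw [Complex.deriv_exp, Complex.norm_exp]
      exact Real.exp_le_exp.2 hx) (by simpa using hb) (by simpa using ha)
  have e : ‖-a - -b‖ = ‖a - b‖ := by rw [neg_sub_neg, norm_sub_rev]
  rwa [e] at h

lemma norm_exp_neg_sub_one_le {u : ℂ} (hu : 0 ≤ u.re) : ‖Complex.exp (-u) - 1‖ ≤ ‖u‖ := by
  have h := norm_exp_sub_exp_le (a := u) (b := 0) (m := 0) hu (by simp)
  simpa using h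

lemma norm_exp_neg_sub_one_add_le {u : ℂ} (hu : 0 ≤ u.re) :
    ‖Complex.exp (-u) - 1 + u‖ ≤ 2 * ‖u‖ ^ 2 := by
  rcases le_total ‖u‖ 1 with h | h
  · have h1 := Complex.norm_exp_sub_one_sub_id_le (x := -u) (by rwa [norm_neg])
    rw [sub_neg_eq_add, norm_neg] at h1
    nlinarith [norm_nonneg u]
  · have h1 := norm_exp_neg_sub_one_le hu
    have h2 := norm_add_le (Complex.exp (-u) - 1) u
    nlinarith [norm_nonneg u]

lemma min_le_four {t : ℝ} (ht : 0 ≤ t) : min 2 t ≤ 4 * (1 - Real.exp (-t)) := by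
  have h := Real.add_one_le_exp t
  have h2 : Real.exp (-t) ≤ 1 / (1 + t) := by
    rw [Real.exp_neg, ← one_div]
    exact one_div_le_one_div_of_le (by linarith) (by linarith)
  have h3 : 1 - Real.exp (-t) ≥ t / (1 + t) := by
    have : t / (1 + t) = 1 - 1 / (1 + t) := by field_simp; ring
    linarith
  rcases le_total t 1 with h1 | h1
  · have : t / 2 ≤ t / (1 + t) := div_le_div_of_nonneg_left ht (by linarith) (by linarith)
    exact (min_le_right _ _).trans (by linarith)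
  · have : 1 / 2 ≤ t / (1 + t) := by
      rw [div_le_div_iff₀ (by norm_num) (by linarith)]
      linarith
    exact (min_le_left _ _).trans (by linarith)

lemma mul_exp_le {x : ℝ} : x * Real.exp (-x) ≤ 1 - Real.exp (-x) := by
  have h := Real.add_one_le_exp x
  have h1 : (x + 1) * Real.exp (-x) ≤ 1 := by
    calc (x + 1) * Real.exp (-x) ≤ Real.exp x * Real.exp (-x) :=
          mul_le_mul_of_nonneg_right h (Real.exp_pos _).le
      _ = 1 := by rw [← Real.exp_add]; simp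
  linarith

/-- the area weight -/
noncomputable def qh (lam h : ℝ) : ℝ := Real.exp (-(lam * h ^ 3))

/-- point of the disc -/
noncomputable def zh (h : ℝ) (s : ℂ) : ℂ := (1 / 4 : ℂ) * Complex.exp (-(s * (h : ℂ) ^ 2))

/-- rescaled function -/
noncomputable def Ps (lam h : ℝ) (s : ℂ) : ℂ := (4 - Rf (qh lam h) (zh h s)) / (8 * (h : ℂ))

/-- real point -/
noncomputable def xh (h x : ℝ) : ℝ := 1 / 4 * Real.exp (-(x * h ^ 2))

/-- rescaled function, real version -/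
noncomputable def Pr (lam h x : ℝ) : ℝ := (4 - Rr (qh lam h) (xh h x)) / (8 * h)

section
variable {lam h : ℝ}

lemma qh_pos : 0 < qh lam h := Real.exp_pos _

lemma qh_le_one (hl : 0 ≤ lam) (hh : 0 < h) : qh lam h ≤ 1 := by
  unfold qh
  rw [Real.exp_le_one_iff]
  have : 0 ≤ lam * h ^ 3 := by positivity
  linarith

lemma xh_nonneg (x : ℝ) : 0 ≤ xh h x := by unfold xh; positivity

lemma xh_pos (x : ℝ) : 0 < xh h x := by unfold xh; positivity

lemma xh_le {x : ℝ} (hx : 0 ≤ x) : xh h x ≤ 1 / 4 := by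
  unfold xh
  have : Real.exp (-(x * h ^ 2)) ≤ 1 := by
    rw [Real.exp_le_one_iff]
    have : 0 ≤ x * h ^ 2 := by positivity
    linarith
  linarith

lemma xh_anti {x y : ℝ} (hxy : x ≤ y) : xh h y ≤ xh h x := by
  unfold xh
  have : Real.exp (-(y * h ^ 2)) ≤ Real.exp (-(x * h ^ 2)) := by
    rw [Real.exp_le_exp]
    have : x * h ^ 2 ≤ y * h ^ 2 := by nlinarith [sq_nonneg h]
    linarith
  linarith

lemma norm_zh (s : ℂ) : ‖zh h s‖ = xh h s.re := by
  unfold zh xh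
  rw [norm_mul, Complex.norm_exp]
  have e1 : ‖(1 / 4 : ℂ)‖ = 1 / 4 := by norm_num
  have e2 : (-(s * (h : ℂ) ^ 2)).re = -(s.re * h ^ 2) := by
    rw [Complex.neg_re, ← Complex.ofReal_pow, Complex.re_mul_ofReal]
  rw [e1, e2]

lemma norm_zh_le {s : ℂ} (hs : 0 ≤ s.re) : ‖zh h s‖ ≤ 1 / 4 := by
  rw [norm_zh]
  exact xh_le hs

lemma zh_ofReal (x : ℝ) : zh h (x : ℂ) = ((xh h x : ℝ) : ℂ) := by
  unfold zh xh
  push_cast
  rfl

lemma Ps_ofReal (x : ℝ) : Ps lam h (x : ℂ) = ((Pr lam h x : ℝ) : ℂ) := by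
  unfold Ps Pr
  rw [zh_ofReal, Rf_ofReal]
  push_cast
  rfl

lemma Pr_nonneg (hl : 0 ≤ lam) (hh : 0 < h) {x : ℝ} (hx : 0 ≤ x) : 0 ≤ Pr lam h x := by
  unfold Pr
  have := Rr_le_four (qh_pos (lam := lam) (h := h)).le (qh_le_one hl hh) (xh_nonneg (h := h) x) (xh_le hx)
  apply div_nonneg <;> linarith

lemma Pr_le (hl : 0 ≤ lam) (hh : 0 < h) {x : ℝ} (hx : 0 ≤ x) : Pr lam h x ≤ 3 / (8 * h) := by
  unfold Pr
  have := one_le_Rr (qh_pos (lam := lam) (h := h)).le (qh_le_one hl hh) (xh_nonneg (h := h) x) (xh_le hx)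
  apply div_le_div_of_nonneg_right _ (by positivity)
  linarith

lemma Pr_mono (hl : 0 ≤ lam) (hh : 0 < h) {x y : ℝ} (hx : 0 ≤ x) (hxy : x ≤ y) :
    Pr lam h x ≤ Pr lam h y := by
  unfold Pr
  have := Rr_mono (qh_pos (lam := lam) (h := h)).le (qh_le_one hl hh) (xh_nonneg (h := h) y) (xh_anti (h := h) hxy)
    (xh_le hx)
  apply div_le_div_of_nonneg_right _ (by positivity)
  linarith

/-- the quantity `X` of the recursion -/
noncomputable def Xs (lam h : ℝ) (s : ℂ) : ℂ :=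
  ((1 - Complex.exp (-(s * (h : ℂ) ^ 2 + 2 * lam * (h : ℂ) ^ 3)))
    + (1 - Complex.exp (-(2 * s * (h : ℂ) ^ 2 + 6 * lam * (h : ℂ) ^ 3))) / 2) / (h : ℂ)
  + Complex.exp (-(2 * s * (h : ℂ) ^ 2 + 6 * lam * (h : ℂ) ^ 3)) * Ps lam h (s + 2 * lam * h)

lemma Ps_rec (hl : 0 ≤ lam) (hh : 0 < h) {s : ℂ} (hs : 0 ≤ s.re) :
    Xs lam h s = Ps lam h s * (1 + 2 * h * Xs lam h s) := by
  have hh0 : (h : ℂ) ≠ 0 := by exact_mod_cast hh.ne'
  have hR := Rf_eq (qh_pos (lam := lam) (h := h)).le (qh_le_one hl hh) (norm_zh_le (h := h) hs)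
  have hq2 : ((qh lam h : ℝ) : ℂ) ^ 2 * zh h s = zh h (s + 2 * lam * h) := by
    unfold qh zh
    rw [Complex.ofReal_exp, ← Complex.exp_nat_mul]
    rw [show Complex.exp (((2 : ℕ) : ℂ) * ((-(lam * h ^ 3) : ℝ) : ℂ)) * (1 / 4 *
      Complex.exp (-(s * (h : ℂ) ^ 2))) = 1 / 4 * (Complex.exp (((2 : ℕ) : ℂ) * ((-(lam * h ^ 3) : ℝ) : ℂ)) *
      Complex.exp (-(s * (h : ℂ) ^ 2))) by ring, ← Complex.exp_add]
    congr 2
    push_cast
    ring
  have hz1 : 4 * (((qh lam h : ℝ) : ℂ) ^ 2 * zh h s) =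
      Complex.exp (-(s * (h : ℂ) ^ 2 + 2 * lam * (h : ℂ) ^ 3)) := by
    rw [hq2]
    unfold zh
    rw [← mul_assoc]
    norm_num
    congr 1
    ring
  have hz2 : 16 * (((qh lam h : ℝ) : ℂ) ^ 6 * zh h s ^ 2) =
      Complex.exp (-(2 * s * (h : ℂ) ^ 2 + 6 * lam * (h : ℂ) ^ 3)) := by
    have e : 16 * (((qh lam h : ℝ) : ℂ) ^ 6 * zh h s ^ 2) =
        (4 * (((qh lam h : ℝ) : ℂ) ^ 2 * zh h s)) ^ 2 * ((qh lam h : ℝ) : ℂ) ^ 2 := by ring
    rw [e, hz1]
    unfold qh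
    rw [Complex.ofReal_exp, ← Complex.exp_nat_mul, ← Complex.exp_nat_mul, ← Complex.exp_add]
    congr 1
    push_cast
    ring
  rw [hq2] at hR
  set e1 := Complex.exp (-(s * (h : ℂ) ^ 2 + 2 * lam * (h : ℂ) ^ 3)) with he1
  set w := Complex.exp (-(2 * s * (h : ℂ) ^ 2 + 6 * lam * (h : ℂ) ^ 3)) with hw
  have hP : Rf (qh lam h) (zh h s) = 4 - 8 * h * Ps lam h s := by
    unfold Ps; field_simp; ring
  have hP' : Rf (qh lam h) (zh h (s + 2 * lam * h)) = 4 - 8 * h * Ps lam h (s + 2 * lam * h) := by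
    unfold Ps; field_simp; ring
  rw [hP, hP'] at hR
  have hR2 : 4 - 8 * h * Ps lam h s = 1 + e1 / 2 * (4 - 8 * h * Ps lam h s)
      + w / 16 * (4 - 8 * h * Ps lam h (s + 2 * lam * h)) * (4 - 8 * h * Ps lam h s) := by
    rw [← hz1, ← hz2]
    linear_combination hR
  have hX : (h : ℂ) * Xs lam h s = (1 - e1) + (1 - w) / 2 + h * w * Ps lam h (s + 2 * lam * h) := by
    unfold Xs
    rw [← he1, ← hw]
    field_simp
  have h2 : (2 * (h : ℂ)) * Xs lam h s = (2 * (h : ℂ)) * (Ps lam h s * (1 + 2 * h * Xs lam h s)) := by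
    have : (2 * (h : ℂ)) * (Ps lam h s * (1 + 2 * h * Xs lam h s)) =
      2 * h * Ps lam h s * (1 + 2 * (h * Xs lam h s)) := by ring
    rw [this, mul_assoc 2 (h : ℂ), hX]
    linear_combination hR2
  exact mul_left_cancel₀ (mul_ne_zero two_ne_zero hh0) h2

/-- real version of the recursion -/
lemma Pr_rec (hl : 0 ≤ lam) (hh : 0 < h) {x : ℝ} (hx : 0 ≤ x) :
    ∃ X : ℝ, X = Pr lam h x * (1 + 2 * h * X) ∧ 0 ≤ X ∧
      X ≤ Pr lam h (x + 2 * lam * h) + 2 * x * h + 5 * lam * h ^ 2 := by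
  set e1 := Real.exp (-(x * h ^ 2 + 2 * lam * h ^ 3)) with he1
  set w := Real.exp (-(2 * x * h ^ 2 + 6 * lam * h ^ 3)) with hw
  have hP := Pr_nonneg hl hh (show 0 ≤ x + 2 * lam * h by positivity)
  have e1' : e1 ≤ 1 := by
    rw [he1, Real.exp_le_one_iff]
    have : 0 ≤ x * h ^ 2 + 2 * lam * h ^ 3 := by positivity
    linarith
  have w' : w ≤ 1 := by
    rw [hw, Real.exp_le_one_iff]
    have : 0 ≤ 2 * x * h ^ 2 + 6 * lam * h ^ 3 := by positivity
    linarith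
  have w0 : 0 < w := Real.exp_pos _
  have e1l : 1 - (x * h ^ 2 + 2 * lam * h ^ 3) ≤ e1 := by
    have := Real.add_one_le_exp (-(x * h ^ 2 + 2 * lam * h ^ 3))
    rw [← he1] at this
    linarith
  have wl : 1 - (2 * x * h ^ 2 + 6 * lam * h ^ 3) ≤ w := by
    have := Real.add_one_le_exp (-(2 * x * h ^ 2 + 6 * lam * h ^ 3))
    rw [← hw] at this
    linarith
  refine ⟨((1 - e1) + (1 - w) / 2) / h + w * Pr lam h (x + 2 * lam * h), ?_, ?_, ?_⟩
  · have h1 := Ps_rec (s := (x : ℂ)) hl hh (by simpa using hx)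
    have h2 : Xs lam h (x : ℂ) =
        ((((1 - e1) + (1 - w) / 2) / h + w * Pr lam h (x + 2 * lam * h) : ℝ) : ℂ) := by
      unfold Xs
      rw [show (x : ℂ) + 2 * lam * h = ((x + 2 * lam * h : ℝ) : ℂ) by push_cast; rfl, Ps_ofReal,
        he1, hw]
      push_cast
      rfl
    rw [h2, Ps_ofReal] at h1
    exact_mod_cast h1
  · have : 0 ≤ ((1 - e1) + (1 - w) / 2) / h := by
      apply div_nonneg _ hh.le
      linarith
    positivity
  · have h1 : ((1 - e1) + (1 - w) / 2) / h ≤ 2 * x * h + 5 * lam * h ^ 2 := by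
      rw [div_le_iff₀ hh]
      have : (1 - e1) + (1 - w) / 2 ≤ 2 * x * h ^ 2 + 5 * lam * h ^ 3 := by linarith
      calc _ ≤ _ := this
        _ = _ := by ring
    have h2 : w * Pr lam h (x + 2 * lam * h) ≤ Pr lam h (x + 2 * lam * h) :=
      mul_le_of_le_one_left hP w'
    linarith

lemma le_of_mobius {P X b h : ℝ} (hh : 0 < h) (hP : X = P * (1 + 2 * h * X)) (hX : 0 ≤ X)
    (hb : 0 ≤ b) (hXb : X ≤ b + 2 * h * b ^ 2) : P ≤ b := by
  have h1 : 0 < 1 + 2 * h * X := by positivity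
  have h2 : P = X / (1 + 2 * h * X) := by
    rw [eq_div_iff h1.ne']
    exact hP.symm
  rw [h2, div_le_iff₀ h1]
  rcases le_total X b with h3 | h3
  · have : 0 ≤ b * (2 * h * X) := by positivity
    linarith
  · have : b * b ≤ b * X := mul_le_mul_of_nonneg_left h3 hb
    nlinarith

lemma Pr_le_sqrt (hl : 0 ≤ lam) (hh : 0 < h) (hh1 : h ≤ 1) {x : ℝ} (hx : 0 ≤ x) :
    Pr lam h x ≤ Real.sqrt (x + (3 * lam + 1)) := by
  rcases hl.eq_or_lt with hl0 | hl0
  · obtain ⟨X, hX1, hX0, hX2⟩ := Pr_rec hl hh hx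
    rw [← hl0] at hX2 hX1 ⊢
    simp only [mul_zero, zero_mul, add_zero, zero_add] at hX2 ⊢
    have hP := Pr_nonneg (lam := 0) le_rfl hh hx
    have h1 : Pr 0 h x ≤ X := by
      have : 0 ≤ Pr 0 h x * (2 * h * X) := by positivity
      nlinarith
    have h2 : Pr 0 h x * X ≤ x := by
      have h3 : 2 * h * (Pr 0 h x * X) ≤ 2 * h * x := by nlinarith
      exact le_of_mul_le_mul_left h3 (by positivity)
    apply Real.le_sqrt_of_sq_le
    nlinarith
  · have key : ∀ k : ℕ, ∀ x : ℝ, 0 ≤ x → (3 / (8 * h)) ^ 2 ≤ x + 2 * lam * h * k →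
        Pr lam h x ≤ Real.sqrt (x + (3 * lam + 1)) := by
      intro k
      induction k with
      | zero =>
        intro x hx hk
        refine (Pr_le hl hh hx).trans ?_
        apply Real.le_sqrt_of_sq_le
        have : x + 2 * lam * h * ((0 : ℕ) : ℝ) = x := by simp
        rw [this] at hk
        linarith
      | succ k ih =>
        intro x hx hk
        have ih' := ih (x + 2 * lam * h) (by positivity) (by push_cast at hk ⊢; linarith)
        obtain ⟨X, hX1, hX0, hX2⟩ := Pr_rec hl hh hx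
        set b := Real.sqrt (x + (3 * lam + 1)) with hb
        have hbsq : b ^ 2 = x + (3 * lam + 1) := Real.sq_sqrt (by positivity)
        have hb1 : 1 ≤ b := by
          rw [hb, Real.one_le_sqrt]
          linarith
        have h3 : Real.sqrt (x + 2 * lam * h + (3 * lam + 1)) ≤ b + lam * h := by
          rw [Real.sqrt_le_left (by positivity)]
          nlinarith [mul_pos hl0 hh, sq_nonneg (lam * h)]
        refine le_of_mobius hh hX1 hX0 (by linarith) ?_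
        rw [hbsq]
        nlinarith [mul_pos hl0 hh, mul_pos (mul_pos hl0 hh) hh]
    obtain ⟨k, hk⟩ := exists_nat_gt ((3 / (8 * h)) ^ 2 / (2 * lam * h))
    refine key k x hx ?_
    rw [div_lt_iff₀ (by positivity)] at hk
    nlinarith

lemma Pr_ge (hl : 0 ≤ lam) (hh : 0 < h) (hh1 : h ≤ 1) {x : ℝ} (hx : 0 ≤ x) :
    1 / 4 * Real.sqrt (x / (1 + x)) ≤ Pr lam h x := by
  have h1 := Rr_mono_q (qh_pos (lam := lam) (h := h)).le (qh_le_one hl hh) le_rfl
    (xh_nonneg (h := h) x) (xh_le hx)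
  have h2 := four_sub_Rr_one (xh_nonneg (h := h) x) (xh_le hx)
  have h3 : x * h ^ 2 / (1 + x) ≤ 1 - 4 * xh h x := by
    unfold xh
    have h4 : Real.exp (-(x * h ^ 2)) ≤ 1 / (1 + x * h ^ 2) := by
      rw [Real.exp_neg, ← one_div]
      exact one_div_le_one_div_of_le (by positivity) (by linarith [Real.add_one_le_exp (x * h ^ 2)])
    have h5 : 1 - 1 / (1 + x * h ^ 2) = x * h ^ 2 / (1 + x * h ^ 2) := by field_simp; ring
    have h6 : x * h ^ 2 / (1 + x) ≤ x * h ^ 2 / (1 + x * h ^ 2) := by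
      apply div_le_div_of_nonneg_left (by positivity) (by positivity)
      have : x * h ^ 2 ≤ x * 1 := mul_le_mul_of_nonneg_left (pow_le_one₀ hh.le hh1) hx
      linarith
    linarith
  have h7 : h * Real.sqrt (x / (1 + x)) ≤ Real.sqrt (1 - 4 * xh h x) := by
    refine le_trans (le_of_eq ?_) (Real.sqrt_le_sqrt h3)
    rw [show x * h ^ 2 / (1 + x) = h ^ 2 * (x / (1 + x)) by ring, Real.sqrt_mul (by positivity),
      Real.sqrt_sq hh.le]
  unfold Pr
  rw [le_div_iff₀ (by positivity)]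
  nlinarith

/-- lower bound of the real part -/
lemma re_Ps_ge (hl : 0 ≤ lam) (hh : 0 < h) {s : ℂ} (hs : 0 ≤ s.re) :
    Pr lam h s.re ≤ (Ps lam h s).re := by
  have h1 := norm_Rf_le_Rr (qh_pos (lam := lam) (h := h)).le (qh_le_one hl hh) (norm_zh_le (h := h) hs)
  rw [norm_zh] at h1
  have h2 := Complex.re_le_norm (Rf (qh lam h) (zh h s))
  unfold Ps Pr
  have e : ((4 - Rf (qh lam h) (zh h s)) / (8 * (h : ℂ))).re =
      (4 - (Rf (qh lam h) (zh h s)).re) / (8 * h) := by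
    rw [show (8 * (h : ℂ)) = ((8 * h : ℝ) : ℂ) by push_cast; rfl, Complex.div_ofReal_re]
    simp
  rw [e]
  apply div_le_div_of_nonneg_right _ (by positivity)
  linarith

lemma zh_pow (s : ℂ) (k : ℕ) : zh h s ^ k =
    (1 / 4 : ℂ) ^ k * Complex.exp (-((k : ℂ) * (s * (h : ℂ) ^ 2))) := by
  unfold zh
  rw [mul_pow, ← Complex.exp_nat_mul]
  congr 2
  ring

lemma xh_pow (x : ℝ) (k : ℕ) : xh h x ^ k =
    (1 / 4 : ℝ) ^ k * Real.exp (-((k : ℝ) * (x * h ^ 2))) := by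
  unfold xh
  rw [mul_pow, ← Real.exp_nat_mul]
  congr 2
  ring

lemma tsum_diff (hl : 0 ≤ lam) (hh : 0 < h) {x : ℝ} (hx : 0 ≤ x) :
    ∑' k, al (qh lam h) k * (1 / 4) ^ k * (1 - Real.exp (-((k : ℝ) * (x * h ^ 2)))) =
      Rr (qh lam h) (1 / 4) - Rr (qh lam h) (xh h x) := by
  have hs1 := summable_Rr (qh_pos (lam := lam) (h := h)).le (qh_le_one hl hh) (by norm_num : (0 : ℝ) ≤ 1 / 4) le_rfl
  have hs2 := summable_Rr (qh_pos (lam := lam) (h := h)).le (qh_le_one hl hh) (xh_nonneg (h := h) x) (xh_le hx)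
  unfold Rr
  rw [← hs1.tsum_sub hs2]
  refine tsum_congr fun k => ?_
  rw [xh_pow]
  ring

lemma summable_diff (hl : 0 ≤ lam) (hh : 0 < h) {x : ℝ} (hx : 0 ≤ x) :
    Summable fun k => al (qh lam h) k * (1 / 4) ^ k * (1 - Real.exp (-((k : ℝ) * (x * h ^ 2)))) := by
  have hs1 := summable_Rr (qh_pos (lam := lam) (h := h)).le (qh_le_one hl hh) (by norm_num : (0 : ℝ) ≤ 1 / 4) le_rfl
  have hs2 := summable_Rr (qh_pos (lam := lam) (h := h)).le (qh_le_one hl hh) (xh_nonneg (h := h) x) (xh_le hx)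
  refine (hs1.sub hs2).congr fun k => ?_
  rw [xh_pow]
  ring

/-- upper bound of the modulus -/
lemma norm_Ps_le (hl : 0 ≤ lam) (hh : 0 < h) {s : ℂ} (hs : 0 ≤ s.re) :
    ‖Ps lam h s‖ ≤ 4 * Pr lam h ‖s‖ := by
  have hq0 := (qh_pos (lam := lam) (h := h)).le
  have hq1 := qh_le_one hl hh
  have hs1 : Summable fun k => ((al (qh lam h) k : ℝ) : ℂ) * (1 / 4 : ℂ) ^ k :=
    (summable_norm_al hq0 hq1 (z := 1 / 4) (by norm_num)).of_norm
  have hs2 : Summable fun k => ((al (qh lam h) k : ℝ) : ℂ) * zh h s ^ k :=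
    (summable_norm_al hq0 hq1 (norm_zh_le hs)).of_norm
  have e1 : Rf (qh lam h) (1 / 4) - Rf (qh lam h) (zh h s) =
      ∑' k, ((al (qh lam h) k : ℝ) : ℂ) * (1 / 4 : ℂ) ^ k *
        (1 - Complex.exp (-((k : ℂ) * (s * (h : ℂ) ^ 2)))) := by
    unfold Rf
    rw [← hs1.tsum_sub hs2]
    refine tsum_congr fun k => ?_
    rw [zh_pow]
    ring
  have hb : ∀ k : ℕ, ‖((al (qh lam h) k : ℝ) : ℂ) * (1 / 4 : ℂ) ^ k *
        (1 - Complex.exp (-((k : ℂ) * (s * (h : ℂ) ^ 2))))‖ ≤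
      4 * (al (qh lam h) k * (1 / 4) ^ k * (1 - Real.exp (-((k : ℝ) * (‖s‖ * h ^ 2))))) := by
    intro k
    rw [norm_mul, norm_mul, norm_pow, Complex.norm_real, Real.norm_of_nonneg (al_nonneg hq0 _)]
    have e2 : ‖(1 / 4 : ℂ)‖ = 1 / 4 := by norm_num
    rw [e2]
    have hre : 0 ≤ ((k : ℂ) * (s * (h : ℂ) ^ 2)).re := by
      have : ((k : ℂ) * (s * (h : ℂ) ^ 2)) = (((k : ℝ) * h ^ 2 : ℝ) : ℂ) * s := by
        push_cast; ring
      rw [this, Complex.re_ofReal_mul]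
      positivity
    have hn : ‖(k : ℂ) * (s * (h : ℂ) ^ 2)‖ = (k : ℝ) * (‖s‖ * h ^ 2) := by
      rw [norm_mul, norm_mul, norm_pow, Complex.norm_real, Real.norm_of_nonneg hh.le,
        Complex.norm_natCast]
    have h3 : ‖1 - Complex.exp (-((k : ℂ) * (s * (h : ℂ) ^ 2)))‖ ≤
        min 2 ((k : ℝ) * (‖s‖ * h ^ 2)) := by
      rw [le_min_iff]
      constructor
      · refine (norm_sub_le _ _).trans ?_
        rw [Complex.norm_exp, norm_one, Complex.neg_re]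
        have : Real.exp (-((k : ℂ) * (s * (h : ℂ) ^ 2)).re) ≤ 1 := by
          rw [Real.exp_le_one_iff]
          linarith
        linarith
      · rw [norm_sub_rev, ← hn]
        exact norm_exp_neg_sub_one_le hre
    have h4 := h3.trans (min_le_four (by positivity))
    have h5 : 0 ≤ al (qh lam h) k * (1 / 4) ^ k :=
      mul_nonneg (al_nonneg hq0 _) (by positivity)
    nlinarith
  have hsd := summable_diff hl hh (norm_nonneg s)
  have h6 : ‖Rf (qh lam h) (1 / 4) - Rf (qh lam h) (zh h s)‖ ≤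
      4 * (Rr (qh lam h) (1 / 4) - Rr (qh lam h) (xh h ‖s‖)) := by
    rw [e1, ← tsum_diff hl hh (norm_nonneg s), ← tsum_mul_left]
    exact tsum_of_norm_bounded (hsd.mul_left 4).hasSum hb
  have h7 : Rf (qh lam h) (1 / 4) = ((Rr (qh lam h) (1 / 4) : ℝ) : ℂ) := by
    rw [← Rf_ofReal]
    push_cast
    rfl
  have h8 := Rr_le_four hq0 hq1 (by norm_num : (0 : ℝ) ≤ 1 / 4) le_rfl
  have h9 : ‖4 - Rf (qh lam h) (1 / 4)‖ = 4 - Rr (qh lam h) (1 / 4) := by
    rw [h7, show (4 : ℂ) - ((Rr (qh lam h) (1 / 4) : ℝ) : ℂ) = ((4 - Rr (qh lam h) (1 / 4) : ℝ) : ℂ) by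
      push_cast; rfl, Complex.norm_real, Real.norm_of_nonneg (by linarith)]
  have h10 : ‖4 - Rf (qh lam h) (zh h s)‖ ≤ 4 * (4 - Rr (qh lam h) (xh h ‖s‖)) := by
    have : 4 - Rf (qh lam h) (zh h s) = (4 - Rf (qh lam h) (1 / 4)) +
      (Rf (qh lam h) (1 / 4) - Rf (qh lam h) (zh h s)) := by ring
    rw [this]
    refine (norm_add_le _ _).trans ?_
    rw [h9]
    linarith
  unfold Ps Pr
  rw [norm_div, norm_mul, Complex.norm_real, Real.norm_of_nonneg hh.le]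
  have e8 : ‖(8 : ℂ)‖ = 8 := by norm_num
  rw [e8, ← mul_div_assoc]
  exact div_le_div_of_nonneg_right h10 (by positivity)

/-- Lipschitz bound -/
lemma norm_Ps_sub_le (hl : 0 ≤ lam) (hh : 0 < h) {σ : ℝ} (hσ : 0 < σ) {s s' : ℂ} (hs : σ ≤ s.re)
    (hs' : σ ≤ s'.re) : ‖Ps lam h s - Ps lam h s'‖ ≤ Pr lam h σ / σ * ‖s - s'‖ := by
  have hq0 := (qh_pos (lam := lam) (h := h)).le
  have hq1 := qh_le_one hl hh
  have hs1 : Summable fun k => ((al (qh lam h) k : ℝ) : ℂ) * zh h s' ^ k :=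
    (summable_norm_al hq0 hq1 (norm_zh_le (hσ.le.trans hs'))).of_norm
  have hs2 : Summable fun k => ((al (qh lam h) k : ℝ) : ℂ) * zh h s ^ k :=
    (summable_norm_al hq0 hq1 (norm_zh_le (hσ.le.trans hs))).of_norm
  have e1 : Rf (qh lam h) (zh h s') - Rf (qh lam h) (zh h s) =
      ∑' k, ((al (qh lam h) k : ℝ) : ℂ) * (1 / 4 : ℂ) ^ k *
        (Complex.exp (-((k : ℂ) * (s' * (h : ℂ) ^ 2))) -
          Complex.exp (-((k : ℂ) * (s * (h : ℂ) ^ 2)))) := by
    unfold Rf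
    rw [← hs1.tsum_sub hs2]
    refine tsum_congr fun k => ?_
    rw [zh_pow, zh_pow]
    ring
  have hb : ∀ k : ℕ, ‖((al (qh lam h) k : ℝ) : ℂ) * (1 / 4 : ℂ) ^ k *
        (Complex.exp (-((k : ℂ) * (s' * (h : ℂ) ^ 2))) -
          Complex.exp (-((k : ℂ) * (s * (h : ℂ) ^ 2))))‖ ≤
      ‖s - s'‖ / σ * (al (qh lam h) k * (1 / 4) ^ k * (1 - Real.exp (-((k : ℝ) * (σ * h ^ 2))))) := by
    intro k
    rw [norm_mul, norm_mul, norm_pow, Complex.norm_real, Real.norm_of_nonneg (al_nonneg hq0 _)]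
    have e2 : ‖(1 / 4 : ℂ)‖ = 1 / 4 := by norm_num
    rw [e2]
    have hre : ∀ t : ℂ, σ ≤ t.re → (k : ℝ) * (σ * h ^ 2) ≤ ((k : ℂ) * (t * (h : ℂ) ^ 2)).re := by
      intro t ht
      have : ((k : ℂ) * (t * (h : ℂ) ^ 2)) = (((k : ℝ) * h ^ 2 : ℝ) : ℂ) * t := by
        push_cast; ring
      rw [this, Complex.re_ofReal_mul]
      have : (k : ℝ) * h ^ 2 * σ ≤ (k : ℝ) * h ^ 2 * t.re :=
        mul_le_mul_of_nonneg_left ht (by positivity)
      linarith
    have h3 := norm_exp_sub_exp_le (hre s' hs') (hre s hs)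
    have h4 : ‖(k : ℂ) * (s' * (h : ℂ) ^ 2) - (k : ℂ) * (s * (h : ℂ) ^ 2)‖ =
        (k : ℝ) * h ^ 2 * ‖s - s'‖ := by
      rw [show (k : ℂ) * (s' * (h : ℂ) ^ 2) - (k : ℂ) * (s * (h : ℂ) ^ 2) =
        (k : ℂ) * (h : ℂ) ^ 2 * (s' - s) by ring, norm_mul, norm_mul, norm_pow, Complex.norm_real,
        Real.norm_of_nonneg hh.le, Complex.norm_natCast, norm_sub_rev s' s]
    rw [h4] at h3
    have h5 : Real.exp (-((k : ℝ) * (σ * h ^ 2))) * ((k : ℝ) * h ^ 2 * ‖s - s'‖) ≤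
        ‖s - s'‖ / σ * (1 - Real.exp (-((k : ℝ) * (σ * h ^ 2)))) := by
      have h6 := mul_exp_le (x := (k : ℝ) * (σ * h ^ 2))
      have h7 : Real.exp (-((k : ℝ) * (σ * h ^ 2))) * ((k : ℝ) * h ^ 2 * ‖s - s'‖) =
          ‖s - s'‖ / σ * ((k : ℝ) * (σ * h ^ 2) * Real.exp (-((k : ℝ) * (σ * h ^ 2)))) := by
        field_simp
      rw [h7]
      exact mul_le_mul_of_nonneg_left h6 (by positivity)
    have h8 : 0 ≤ al (qh lam h) k * (1 / 4) ^ k :=
      mul_nonneg (al_nonneg hq0 _) (by positivity)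
    calc _ ≤ al (qh lam h) k * (1 / 4) ^ k * (‖s - s'‖ / σ * (1 - Real.exp (-((k : ℝ) * (σ * h ^ 2))))) :=
          mul_le_mul_of_nonneg_left (h3.trans h5) h8
      _ = _ := by ring
  have hsd := summable_diff (lam := lam) hl hh hσ.le
  have h6 : ‖Rf (qh lam h) (zh h s') - Rf (qh lam h) (zh h s)‖ ≤
      ‖s - s'‖ / σ * (Rr (qh lam h) (1 / 4) - Rr (qh lam h) (xh h σ)) := by
    rw [e1, ← tsum_diff hl hh hσ.le, ← tsum_mul_left]
    exact tsum_of_norm_bounded (hsd.mul_left _).hasSum hb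
  have h8 := Rr_le_four hq0 hq1 (by norm_num : (0 : ℝ) ≤ 1 / 4) le_rfl
  have h9 : ‖Rf (qh lam h) (zh h s') - Rf (qh lam h) (zh h s)‖ ≤
      ‖s - s'‖ / σ * (4 - Rr (qh lam h) (xh h σ)) :=
    h6.trans (mul_le_mul_of_nonneg_left (by linarith) (by positivity))
  have e3 : Ps lam h s - Ps lam h s' =
      (Rf (qh lam h) (zh h s') - Rf (qh lam h) (zh h s)) / (8 * (h : ℂ)) := by
    unfold Ps; ring
  rw [e3, norm_div, norm_mul, Complex.norm_real, Real.norm_of_nonneg hh.le]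
  have e8 : ‖(8 : ℂ)‖ = 8 := by norm_num
  rw [e8, div_le_iff₀ (by positivity)]
  refine h9.trans (le_of_eq ?_)
  unfold Pr
  field_simp

end

end Pool.Agent.Gap.St
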