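import Pool.Agent.Lib_helper73.Gap.St2

/-! MP_f6626d_co, module LIM, part 3: the rescaled functions converge (Riccati equation). -/

set_option autoImplicit false

open Finset Filter Topology

namespace Pool.Agent.Gap.St

lemma norm_Ps_le_of {lam h : ℝ} (hl : 0 ≤ lam) (hh : 0 < h) (hh1 : h ≤ 1) {s : ℂ} (hs : 0 ≤ s.re)
    {M : ℝ} (hM : ‖s‖ ≤ M) : ‖Ps lam h s‖ ≤ 4 * Real.sqrt (M + (3 * lam + 1)) := by
  refine (norm_Ps_le hl hh hs).trans ?_
  have := Pr_le_sqrt hl hh hh1 (norm_nonneg s)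
  have h2 : Real.sqrt (‖s‖ + (3 * lam + 1)) ≤ Real.sqrt (M + (3 * lam + 1)) :=
    Real.sqrt_le_sqrt (by linarith)
  linarith

/-- one step of the recursion -/
lemma step {lam : ℝ} (hl : 0 ≤ lam) (M : ℝ) (hM0 : 0 ≤ M) : ∃ C : ℝ, 0 ≤ C ∧
    ∀ h : ℝ, 0 < h → h ≤ 1 → ∀ s : ℂ, 0 ≤ s.re → ‖s‖ ≤ M →
      ‖Ps lam h (s + 2 * lam * h) - Ps lam h s - 2 * h * (Ps lam h s ^ 2 - s)‖ ≤ C * h ^ 2 := by
  set B : ℝ := 4 * Real.sqrt (M + 2 * lam + (3 * lam + 1)) with hB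
  have hB0 : 0 ≤ B := by positivity
  refine ⟨4 * ((2 * M + 5 * lam) + B) * B ^ 2 + (2 * (M + 2 * lam) ^ 2 + (2 * M + 6 * lam) ^ 2
    + 5 * lam) + (2 * M + 6 * lam) * B, by positivity, ?_⟩
  intro h hh hh1 s hs hsM
  have hh0 : (h : ℂ) ≠ 0 := by exact_mod_cast hh.ne'
  have hh2 : h ^ 2 ≤ 1 := pow_le_one₀ hh.le hh1
  have hh3 : h ^ 3 ≤ h ^ 2 := pow_le_pow_of_le_one hh.le hh1 (by norm_num)
  have hh4 : h ^ 4 ≤ h ^ 3 := pow_le_pow_of_le_one hh.le hh1 (by norm_num)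
  have hsp : 0 ≤ (s + 2 * lam * h : ℂ).re := by
    have : (s + 2 * lam * h : ℂ).re = s.re + 2 * lam * h := by simp
    rw [this]; positivity
  have hspM : ‖(s + 2 * lam * h : ℂ)‖ ≤ M + 2 * lam := by
    refine (norm_add_le _ _).trans (add_le_add hsM ?_)
    rw [norm_mul, norm_mul, Complex.norm_real, Complex.norm_real, Real.norm_of_nonneg hl,
      Real.norm_of_nonneg hh.le]
    have e2 : ‖(2 : ℂ)‖ = 2 := by norm_num
    rw [e2]
    nlinarith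
  have hP1 : ‖Ps lam h s‖ ≤ B := norm_Ps_le_of hl hh hh1 hs (by linarith)
  have hP2 : ‖Ps lam h (s + 2 * lam * h)‖ ≤ B := norm_Ps_le_of hl hh hh1 hsp hspM
  set u1 : ℂ := s * (h : ℂ) ^ 2 + 2 * lam * (h : ℂ) ^ 3 with hu1
  set u2 : ℂ := 2 * s * (h : ℂ) ^ 2 + 6 * lam * (h : ℂ) ^ 3 with hu2
  have hre1 : 0 ≤ u1.re := by
    have : u1.re = s.re * h ^ 2 + 2 * lam * h ^ 3 := by
      rw [hu1, show s * (h : ℂ) ^ 2 + 2 * lam * (h : ℂ) ^ 3 =
        ((h ^ 2 : ℝ) : ℂ) * s + ((2 * lam * h ^ 3 : ℝ) : ℂ) by push_cast; ring, Complex.add_re,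
        Complex.re_ofReal_mul, Complex.ofReal_re]
      ring
    rw [this]; positivity
  have hre2 : 0 ≤ u2.re := by
    have : u2.re = 2 * s.re * h ^ 2 + 6 * lam * h ^ 3 := by
      rw [hu2, show 2 * s * (h : ℂ) ^ 2 + 6 * lam * (h : ℂ) ^ 3 =
        ((2 * h ^ 2 : ℝ) : ℂ) * s + ((6 * lam * h ^ 3 : ℝ) : ℂ) by push_cast; ring, Complex.add_re,
        Complex.re_ofReal_mul, Complex.ofReal_re]
      ring
    rw [this]; positivity
  have hn1 : ‖u1‖ ≤ (M + 2 * lam) * h ^ 2 := by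
    rw [hu1, show s * (h : ℂ) ^ 2 + 2 * lam * (h : ℂ) ^ 3 =
        ((h ^ 2 : ℝ) : ℂ) * s + ((2 * lam * h ^ 3 : ℝ) : ℂ) by push_cast; ring]
    refine (norm_add_le _ _).trans ?_
    rw [norm_mul, Complex.norm_real, Complex.norm_real, Real.norm_of_nonneg (by positivity),
      Real.norm_of_nonneg (by positivity)]
    nlinarith [mul_le_mul_of_nonneg_left hsM (sq_nonneg h), mul_le_mul_of_nonneg_left hh3 hl]
  have hn2 : ‖u2‖ ≤ (2 * M + 6 * lam) * h ^ 2 := by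
    rw [hu2, show 2 * s * (h : ℂ) ^ 2 + 6 * lam * (h : ℂ) ^ 3 =
        ((2 * h ^ 2 : ℝ) : ℂ) * s + ((6 * lam * h ^ 3 : ℝ) : ℂ) by push_cast; ring]
    refine (norm_add_le _ _).trans ?_
    rw [norm_mul, Complex.norm_real, Complex.norm_real, Real.norm_of_nonneg (by positivity),
      Real.norm_of_nonneg (by positivity)]
    nlinarith [mul_le_mul_of_nonneg_left hsM (sq_nonneg h), mul_le_mul_of_nonneg_left hh3 hl]
  set τ : ℂ := ((1 - Complex.exp (-u1)) + (1 - Complex.exp (-u2)) / 2) / (h : ℂ) with hτ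
  have hXdef : Xs lam h s = τ + Complex.exp (-u2) * Ps lam h (s + 2 * lam * h) := rfl
  have hrec := Ps_rec hl hh hs
  -- bounds
  have hb1 : ‖1 - Complex.exp (-u1)‖ ≤ (M + 2 * lam) * h ^ 2 := by
    rw [norm_sub_rev]; exact (norm_exp_neg_sub_one_le hre1).trans hn1
  have hb2 : ‖1 - Complex.exp (-u2)‖ ≤ (2 * M + 6 * lam) * h ^ 2 := by
    rw [norm_sub_rev]; exact (norm_exp_neg_sub_one_le hre2).trans hn2
  have hw1 : ‖Complex.exp (-u2)‖ ≤ 1 := by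
    rw [Complex.norm_exp, Complex.neg_re, Real.exp_le_one_iff]
    linarith
  have hτb : ‖τ‖ ≤ 2 * M + 5 * lam := by
    rw [hτ, norm_div, Complex.norm_real, Real.norm_of_nonneg hh.le, div_le_iff₀ hh]
    refine (norm_add_le _ _).trans ?_
    rw [norm_div]
    have e2 : ‖(2 : ℂ)‖ = 2 := by norm_num
    rw [e2]
    have : (M + 2 * lam) * h ^ 2 + (2 * M + 6 * lam) * h ^ 2 / 2 ≤ (2 * M + 5 * lam) * h := by
      have : h ^ 2 ≤ h := by nlinarith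
      have h5 : (0 : ℝ) ≤ 2 * M + 5 * lam := by positivity
      nlinarith
    linarith
  have hXb : ‖Xs lam h s‖ ≤ (2 * M + 5 * lam) + B := by
    rw [hXdef]
    refine (norm_add_le _ _).trans (add_le_add hτb ?_)
    rw [norm_mul]
    calc _ ≤ 1 * B := mul_le_mul hw1 hP2 (norm_nonneg _) zero_le_one
      _ = B := one_mul _
  have hτs : ‖τ - 2 * h * s‖ ≤ (2 * (M + 2 * lam) ^ 2 + (2 * M + 6 * lam) ^ 2 + 5 * lam) * h ^ 2 := by
    have e : τ - 2 * h * s = (-(Complex.exp (-u1) - 1 + u1) - (Complex.exp (-u2) - 1 + u2) / 2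
        + ((5 * lam * h ^ 3 : ℝ) : ℂ)) / (h : ℂ) := by
      rw [hτ, eq_div_iff hh0, sub_mul, div_mul_cancel₀ _ hh0, hu1, hu2]
      push_cast
      ring
    rw [e, norm_div, Complex.norm_real, Real.norm_of_nonneg hh.le, div_le_iff₀ hh]
    have t1 := norm_exp_neg_sub_one_add_le hre1
    have t2 := norm_exp_neg_sub_one_add_le hre2
    have t3 : ‖-(Complex.exp (-u1) - 1 + u1) - (Complex.exp (-u2) - 1 + u2) / 2
        + ((5 * lam * h ^ 3 : ℝ) : ℂ)‖ ≤ ‖Complex.exp (-u1) - 1 + u1‖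
          + ‖Complex.exp (-u2) - 1 + u2‖ / 2 + 5 * lam * h ^ 3 := by
      refine (norm_add_le _ _).trans ?_
      rw [Complex.norm_real, Real.norm_of_nonneg (by positivity : 0 ≤ 5 * lam * h ^ 3)]
      refine add_le_add_left ?_ _
      refine (norm_sub_le _ _).trans ?_
      rw [norm_neg, norm_div]
      have e2 : ‖(2 : ℂ)‖ = 2 := by norm_num
      rw [e2]
    have s1 : ‖u1‖ ^ 2 ≤ (M + 2 * lam) ^ 2 * h ^ 3 := by
      have := pow_le_pow_left₀ (norm_nonneg _) hn1 2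
      have h5 : (M + 2 * lam) ^ 2 * h ^ 4 ≤ (M + 2 * lam) ^ 2 * h ^ 3 :=
        mul_le_mul_of_nonneg_left hh4 (by positivity)
      calc _ ≤ _ := this
        _ = (M + 2 * lam) ^ 2 * h ^ 4 := by ring
        _ ≤ _ := h5
    have s2 : ‖u2‖ ^ 2 ≤ (2 * M + 6 * lam) ^ 2 * h ^ 3 := by
      have := pow_le_pow_left₀ (norm_nonneg _) hn2 2
      have h5 : (2 * M + 6 * lam) ^ 2 * h ^ 4 ≤ (2 * M + 6 * lam) ^ 2 * h ^ 3 :=
        mul_le_mul_of_nonneg_left hh4 (by positivity)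
      calc _ ≤ _ := this
        _ = (2 * M + 6 * lam) ^ 2 * h ^ 4 := by ring
        _ ≤ _ := h5
    have e5 : (2 * (M + 2 * lam) ^ 2 + (2 * M + 6 * lam) ^ 2 + 5 * lam) * h ^ 2 * h =
      2 * ((M + 2 * lam) ^ 2 * h ^ 3) + (2 * M + 6 * lam) ^ 2 * h ^ 3 + 5 * lam * h ^ 3 := by ring
    rw [e5]
    linarith
  have hid : Ps lam h (s + 2 * lam * h) - Ps lam h s - 2 * h * (Ps lam h s ^ 2 - s) =
      4 * h ^ 2 * Xs lam h s * Ps lam h s ^ 2 - (τ - 2 * h * s)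
        + (1 - Complex.exp (-u2)) * Ps lam h (s + 2 * lam * h) := by
    have h1 : Ps lam h (s + 2 * lam * h) = Xs lam h s - τ
        + (1 - Complex.exp (-u2)) * Ps lam h (s + 2 * lam * h) := by rw [hXdef]; ring
    have h2 : Xs lam h s - Ps lam h s = 2 * h * Xs lam h s * Ps lam h s := by
      linear_combination hrec
    linear_combination h1 + h2 + 2 * h * Ps lam h s * h2
  rw [hid]
  refine (norm_add_le _ _).trans ?_
  have f1 : ‖4 * h ^ 2 * Xs lam h s * Ps lam h s ^ 2 - (τ - 2 * h * s)‖ ≤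
      4 * ((2 * M + 5 * lam) + B) * B ^ 2 * h ^ 2
        + (2 * (M + 2 * lam) ^ 2 + (2 * M + 6 * lam) ^ 2 + 5 * lam) * h ^ 2 := by
    refine (norm_sub_le _ _).trans (add_le_add ?_ hτs)
    rw [norm_mul, norm_mul, norm_mul, norm_pow, norm_pow, Complex.norm_real,
      Real.norm_of_nonneg hh.le]
    have e4 : ‖(4 : ℂ)‖ = 4 := by norm_num
    rw [e4]
    have g1 : ‖Xs lam h s‖ * ‖Ps lam h s‖ ^ 2 ≤ ((2 * M + 5 * lam) + B) * B ^ 2 :=
      mul_le_mul hXb (pow_le_pow_left₀ (norm_nonneg _) hP1 2) (by positivity) (by positivity)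
    calc 4 * h ^ 2 * ‖Xs lam h s‖ * ‖Ps lam h s‖ ^ 2 = 4 * h ^ 2 * (‖Xs lam h s‖ * ‖Ps lam h s‖ ^ 2) := by ring
      _ ≤ 4 * h ^ 2 * (((2 * M + 5 * lam) + B) * B ^ 2) := mul_le_mul_of_nonneg_left g1 (by positivity)
      _ = _ := by ring
  have f2 : ‖(1 - Complex.exp (-u2)) * Ps lam h (s + 2 * lam * h)‖ ≤
      (2 * M + 6 * lam) * B * h ^ 2 := by
    rw [norm_mul]
    calc _ ≤ ((2 * M + 6 * lam) * h ^ 2) * B := mul_le_mul hb2 hP2 (norm_nonneg _) (by positivity)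
      _ = _ := by ring
  calc _ ≤ _ := add_le_add f1 f2
    _ = _ := by ring

end Pool.Agent.Gap.St
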