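import Pool.Agent.Lib_helper73.Gap.St3

/-! MP_f6626d_co, module LIM, part 4: evolution along the real direction, uniqueness, limit. -/

set_option autoImplicit false

open Finset Filter Topology

namespace Pool.Agent.Gap.St

/-- evolution along horizontal lines -/
lemma evol {lam : ℝ} (hl : 0 < lam) {σ : ℝ} (hσ : 0 < σ) (M : ℝ) (hM0 : 0 ≤ M) :
    ∃ C : ℝ, 0 ≤ C ∧ ∀ h : ℝ, 0 < h → h ≤ 1 → ∀ s : ℂ, σ ≤ s.re → ‖s‖ ≤ M →
      ∀ x : ℝ, 0 ≤ x → x ≤ 1 →
        ‖Ps lam h (s + x) - Ps lam h s - (x / lam) * (Ps lam h s ^ 2 - s)‖ ≤ C * (x ^ 2 + h) := by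
  obtain ⟨C1, hC1, hstep⟩ := step hl.le (M + 1) (by positivity)
  set B : ℝ := 4 * Real.sqrt (M + 1 + (3 * lam + 1)) with hB
  have hB0 : 0 ≤ B := by positivity
  set L : ℝ := Real.sqrt (σ + (3 * lam + 1)) / σ with hL
  have hL0 : 0 ≤ L := by positivity
  set C2 : ℝ := 2 * B * L + 1 with hC2
  have hC20 : 0 ≤ C2 := by positivity
  refine ⟨C1 / (2 * lam) + C2 / lam + L * (2 * lam) + 2 * (B ^ 2 + M), by positivity, ?_⟩
  intro h hh hh1 s hs hsM x hx0 hx1
  have hB' : ∀ y : ℝ, 0 ≤ y → y ≤ 1 → ‖Ps lam h (s + y)‖ ≤ B := by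
    intro y hy0 hy1
    refine norm_Ps_le_of hl.le hh hh1 ?_ ?_
    · have : (s + y : ℂ).re = s.re + y := by simp
      rw [this]; linarith
    · refine (norm_add_le _ _).trans ?_
      rw [Complex.norm_real, Real.norm_of_nonneg hy0]
      linarith
  have hLip : ∀ y y' : ℝ, 0 ≤ y → y ≤ y' →
      ‖Ps lam h (s + y') - Ps lam h (s + y)‖ ≤ L * (y' - y) := by
    intro y y' hy0 hyy
    have h1 := norm_Ps_sub_le hl.le hh hσ (s := s + y') (s' := s + y)
      (by have : (s + y' : ℂ).re = s.re + y' := by simp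
          rw [this]; linarith)
      (by have : (s + y : ℂ).re = s.re + y := by simp
          rw [this]; linarith)
    have h2 : ‖(s + y' : ℂ) - (s + y)‖ = y' - y := by
      rw [show (s + y' : ℂ) - (s + y) = ((y' - y : ℝ) : ℂ) by push_cast; ring, Complex.norm_real,
        Real.norm_of_nonneg (by linarith)]
    rw [h2] at h1
    refine h1.trans (mul_le_mul_of_nonneg_right ?_ (by linarith))
    exact div_le_div_of_nonneg_right (Pr_le_sqrt hl.le hh hh1 hσ.le) hσ.le
  have hP0 : ‖Ps lam h s‖ ≤ B := by simpa using hB' 0 le_rfl zero_le_one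
  have hk : ∀ k : ℕ, 2 * lam * h * k ≤ x →
      ‖Ps lam h (s + (2 * lam * h * k : ℝ)) - Ps lam h s - 2 * h * k * (Ps lam h s ^ 2 - s)‖ ≤
        k * (C1 * h ^ 2 + 2 * h * (C2 * x)) := by
    intro k
    induction k with
    | zero => intro _; simp
    | succ k ih =>
      intro hk1
      push_cast at hk1
      have hk2 : 2 * lam * h * k ≤ x := by nlinarith [mul_pos hl hh]
      have hkx : 0 ≤ 2 * lam * h * k := by positivity
      set y : ℝ := 2 * lam * h * k with hy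
      have ih' := ih hk2
      have hst := hstep h hh hh1 (s + (y : ℝ))
        (by have : (s + (y : ℝ) : ℂ).re = s.re + y := by simp
            rw [this]; linarith)
        (by refine (norm_add_le _ _).trans ?_
            rw [Complex.norm_real, Real.norm_of_nonneg hkx]
            linarith)
      have e1 : (s + ((2 * lam * h * ((k + 1 : ℕ) : ℝ) : ℝ) : ℂ)) = s + (y : ℝ) + 2 * lam * h := by
        rw [hy]; push_cast; ring
      rw [e1]
      have hsq : ‖Ps lam h (s + (y : ℝ)) ^ 2 - (s + (y : ℝ)) - (Ps lam h s ^ 2 - s)‖ ≤ C2 * x := by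
        have h1 : Ps lam h (s + (y : ℝ)) ^ 2 - (s + (y : ℝ)) - (Ps lam h s ^ 2 - s) =
            (Ps lam h (s + (y : ℝ)) - Ps lam h (s + (0 : ℝ))) * (Ps lam h (s + (y : ℝ)) + Ps lam h s)
              - ((y : ℝ) : ℂ) := by
          simp only [Complex.ofReal_zero, add_zero]
          ring
        rw [h1]
        refine (norm_sub_le _ _).trans ?_
        rw [norm_mul, Complex.norm_real, Real.norm_of_nonneg hkx]
        have h2 := hLip 0 y le_rfl hkx
        rw [sub_zero] at h2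
        have h3 : ‖Ps lam h (s + (y : ℝ)) + Ps lam h s‖ ≤ 2 * B :=
          (norm_add_le _ _).trans (by linarith [hB' y hkx (hk2.trans hx1)])
        have h4 := mul_le_mul h2 h3 (norm_nonneg _) (by positivity)
        have h5 : L * y * (2 * B) ≤ L * x * (2 * B) := by
          have := mul_le_mul_of_nonneg_left hk2 hL0
          nlinarith
        rw [hC2]
        nlinarith
      have e2 : Ps lam h (s + (y : ℝ) + 2 * lam * h) - Ps lam h s
          - 2 * h * ((k + 1 : ℕ) : ℂ) * (Ps lam h s ^ 2 - s) =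
          (Ps lam h (s + (y : ℝ) + 2 * lam * h) - Ps lam h (s + (y : ℝ))
            - 2 * h * (Ps lam h (s + (y : ℝ)) ^ 2 - (s + (y : ℝ))))
          + 2 * h * (Ps lam h (s + (y : ℝ)) ^ 2 - (s + (y : ℝ)) - (Ps lam h s ^ 2 - s))
          + (Ps lam h (s + (y : ℝ)) - Ps lam h s - 2 * h * k * (Ps lam h s ^ 2 - s)) := by
        push_cast; ring
      rw [e2]
      refine (norm_add_le _ _).trans ?_
      have f1 := norm_add_le (Ps lam h (s + (y : ℝ) + 2 * lam * h) - Ps lam h (s + (y : ℝ))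
            - 2 * h * (Ps lam h (s + (y : ℝ)) ^ 2 - (s + (y : ℝ))))
          (2 * h * (Ps lam h (s + (y : ℝ)) ^ 2 - (s + (y : ℝ)) - (Ps lam h s ^ 2 - s)))
      have f2 : ‖(2 : ℂ) * h * (Ps lam h (s + (y : ℝ)) ^ 2 - (s + (y : ℝ)) - (Ps lam h s ^ 2 - s))‖ ≤
          2 * h * (C2 * x) := by
        rw [norm_mul, norm_mul, Complex.norm_real, Real.norm_of_nonneg hh.le]
        have e2 : ‖(2 : ℂ)‖ = 2 := by norm_num
        rw [e2]
        exact mul_le_mul_of_nonneg_left hsq (by positivity)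
      push_cast
      linarith
  -- general x
  set k : ℕ := ⌊x / (2 * lam * h)⌋₊ with hkdef
  have hlh : 0 < 2 * lam * h := by positivity
  have hk1 : 2 * lam * h * k ≤ x := by
    have := Nat.floor_le (show 0 ≤ x / (2 * lam * h) by positivity)
    rw [← hkdef, le_div_iff₀ hlh] at this
    linarith
  have hk2 : x - 2 * lam * h * k ≤ 2 * lam * h := by
    have := Nat.lt_floor_add_one (x / (2 * lam * h))
    rw [← hkdef, div_lt_iff₀ hlh] at this
    linarith
  have hk3 := hk k hk1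
  set y : ℝ := 2 * lam * h * k with hy
  have hy0 : 0 ≤ y := by positivity
  have hkh : (h : ℝ) * k = y / (2 * lam) := by rw [hy]; field_simp
  have e3 : Ps lam h (s + x) - Ps lam h s - (x / lam) * (Ps lam h s ^ 2 - s) =
      (Ps lam h (s + x) - Ps lam h (s + (y : ℝ)))
      + (Ps lam h (s + (y : ℝ)) - Ps lam h s - 2 * h * k * (Ps lam h s ^ 2 - s))
      - (((x - y) / lam : ℝ) : ℂ) * (Ps lam h s ^ 2 - s) := by
    have : (2 : ℂ) * h * k = ((y / lam : ℝ) : ℂ) := by
      have h1 : (2 : ℝ) * h * k = y / lam := by rw [hy]; field_simp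
      rw [← h1]; push_cast; ring
    rw [this]
    push_cast
    ring
  rw [e3]
  refine (norm_sub_le _ _).trans ?_
  have g1 := norm_add_le (Ps lam h (s + x) - Ps lam h (s + (y : ℝ)))
    (Ps lam h (s + (y : ℝ)) - Ps lam h s - 2 * h * k * (Ps lam h s ^ 2 - s))
  have g2 := hLip y x hy0 hk1
  have g3 : L * (x - y) ≤ L * (2 * lam) * h := by
    have := mul_le_mul_of_nonneg_left hk2 hL0
    linarith
  have g4 : (k : ℝ) * (C1 * h ^ 2 + 2 * h * (C2 * x)) ≤ C1 / (2 * lam) * h + C2 / lam * x ^ 2 := by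
    have h1 : (k : ℝ) * (C1 * h ^ 2 + 2 * h * (C2 * x)) = (h * k) * (C1 * h + 2 * (C2 * x)) := by ring
    rw [h1, hkh]
    have h2 : y / (2 * lam) ≤ x / (2 * lam) := div_le_div_of_nonneg_right hk1 (by positivity)
    have h3 : y / (2 * lam) * (C1 * h + 2 * (C2 * x)) ≤ x / (2 * lam) * (C1 * h + 2 * (C2 * x)) :=
      mul_le_mul_of_nonneg_right h2 (by positivity)
    have h4 : x / (2 * lam) * (C1 * h + 2 * (C2 * x)) = x * (C1 / (2 * lam) * h) + C2 / lam * x ^ 2 := by
      field_simp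
    have h5 : x * (C1 / (2 * lam) * h) ≤ C1 / (2 * lam) * h := mul_le_of_le_one_left (by positivity) hx1
    linarith
  have g5 : ‖(((x - y) / lam : ℝ) : ℂ) * (Ps lam h s ^ 2 - s)‖ ≤ 2 * (B ^ 2 + M) * h := by
    rw [norm_mul, Complex.norm_real, Real.norm_of_nonneg (by apply div_nonneg _ hl.le; linarith)]
    have h1 : ‖Ps lam h s ^ 2 - s‖ ≤ B ^ 2 + M := by
      refine (norm_sub_le _ _).trans (add_le_add ?_ hsM)
      rw [norm_pow]
      exact pow_le_pow_left₀ (norm_nonneg _) hP0 2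
    have h2 : (x - y) / lam ≤ 2 * h := by
      rw [div_le_iff₀ hl]
      linarith
    calc _ ≤ (2 * h) * (B ^ 2 + M) := mul_le_mul h2 h1 (norm_nonneg _) (by positivity)
      _ = _ := by ring
  have hC10 : 0 ≤ C1 / (2 * lam) * x ^ 2 := by positivity
  have hC20' : 0 ≤ C2 / lam * h := by positivity
  have h6 : 0 ≤ L * (2 * lam) * x ^ 2 := by positivity
  have h7 : 0 ≤ 2 * (B ^ 2 + M) * x ^ 2 := by positivity
  nlinarith

/-- a growth lemma -/
lemma grow {f : ℝ → ℝ} {c : ℝ} (hc : 0 ≤ c) (hf : ∀ t, 0 ≤ f t)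
    (H : ∀ T : ℝ, 0 ≤ T → ∃ C : ℝ, 0 ≤ C ∧ ∀ t x : ℝ, 0 ≤ t → t ≤ T → 0 ≤ x → x ≤ 1 →
      (1 + c * x) * f t - C * x ^ 2 ≤ f (t + x)) (T : ℝ) (hT : 0 ≤ T) :
    (1 + c * T) * f 0 ≤ f T := by
  obtain ⟨C, hC, hH⟩ := H T hT
  have key : ∀ m : ℕ, T ≤ m → 0 < m →
      (1 + c * T) * f 0 - (C * T + c * C * T ^ 2) * (T / m) ≤ f T := by
    intro m hm hm0
    have hm' : (0 : ℝ) < m := by exact_mod_cast hm0
    set x := T / m with hx
    have hx0 : 0 ≤ x := by positivity
    have hx1 : x ≤ 1 := by rw [hx, div_le_one hm']; exact hm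
    have hxm : (m : ℝ) * x = T := by rw [hx]; field_simp
    have hj : ∀ j : ℕ, j ≤ m → f 0 - j * C * x ^ 2 ≤ f (j * x) ∧
        f 0 + c * x * j * f 0 - j * C * x ^ 2 - c * C * x ^ 3 * j ^ 2 ≤ f (j * x) := by
      intro j
      induction j with
      | zero => intro _; simp
      | succ j ih =>
        intro hj
        obtain ⟨i1, i2⟩ := ih (by omega)
        have hjx : (j : ℝ) * x ≤ T := by
          rw [← hxm]
          exact mul_le_mul_of_nonneg_right (by exact_mod_cast (by omega : j ≤ m)) hx0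
        have h1 := hH (j * x) x (by positivity) hjx hx0 hx1
        have e : (j : ℝ) * x + x = ((j + 1 : ℕ) : ℝ) * x := by push_cast; ring
        rw [e] at h1
        have h0 := hf (j * x)
        constructor
        · push_cast
          push_cast at h1
          nlinarith [mul_nonneg (mul_nonneg hc hx0) h0]
        · push_cast
          push_cast at h1
          have h2 : c * x * (f 0 - j * C * x ^ 2) ≤ c * x * f (j * x) :=
            mul_le_mul_of_nonneg_left i1 (by positivity)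
          have h3 : 0 ≤ c * C * x ^ 3 * (j + 1) := by positivity
          nlinarith
    have hfin := (hj m le_rfl).2
    rw [hxm] at hfin
    have e2 : f 0 + c * x * m * f 0 - m * C * x ^ 2 - c * C * x ^ 3 * m ^ 2 =
        f 0 + c * (m * x) * f 0 - (m * x) * C * x - c * C * (m * x) ^ 2 * x := by ring
    rw [e2, hxm] at hfin
    linarith
  have hlim : Tendsto (fun m : ℕ => (1 + c * T) * f 0 - (C * T + c * C * T ^ 2) * (T / m)) atTop
      (𝓝 ((1 + c * T) * f 0 - (C * T + c * C * T ^ 2) * 0)) := by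
    refine tendsto_const_nhds.sub (tendsto_const_nhds.mul ?_)
    exact tendsto_const_div_atTop_nhds_zero_nat T
  rw [mul_zero, sub_zero] at hlim
  refine le_of_tendsto hlim ?_
  obtain ⟨m0, hm0⟩ := exists_nat_ge T
  filter_upwards [eventually_ge_atTop m0, eventually_gt_atTop 0] with m hm hm1
  exact key m (hm0.trans (by exact_mod_cast hm)) hm1

/-- the class of limit functions -/
structure Good (lam : ℝ) (Φ : ℂ → ℂ) : Prop where
  bd : ∀ s : ℂ, 0 < s.re → ‖Φ s‖ ≤ 4 * Real.sqrt (‖s‖ + (3 * lam + 1))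
  re : ∀ s : ℂ, 0 < s.re → 1 / 4 * Real.sqrt (s.re / (1 + s.re)) ≤ (Φ s).re
  ev : ∀ σ : ℝ, 0 < σ → ∀ M : ℝ, 0 ≤ M → ∃ C : ℝ, 0 ≤ C ∧ ∀ s : ℂ, σ ≤ s.re → ‖s‖ ≤ M →
    ∀ x : ℝ, 0 ≤ x → x ≤ 1 → ‖Φ (s + x) - Φ s - (x / lam) * (Φ s ^ 2 - s)‖ ≤ C * x ^ 2

lemma Good.unique {lam : ℝ} (hl : 0 < lam) {Φ Φ' : ℂ → ℂ} (h1 : Good lam Φ) (h2 : Good lam Φ')
    {s : ℂ} (hs : 0 < s.re) : Φ s = Φ' s := by
  set σ := s.re with hσ
  set c : ℝ := 1 / (2 * lam) * Real.sqrt (σ / (1 + σ)) with hc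
  have hc0 : 0 < c := by positivity
  set f : ℝ → ℝ := fun t => ‖Φ (s + t) - Φ' (s + t)‖ with hf
  have hre : ∀ t : ℝ, (s + t : ℂ).re = σ + t := by intro t; simp [hσ]
  have hgrow : ∀ T : ℝ, 0 ≤ T → (1 + c * T) * f 0 ≤ f T := by
    refine fun T hT => grow (f := f) hc0.le (fun t => norm_nonneg _) ?_ T hT
    intro T hT
    obtain ⟨C, hC, hev⟩ := h1.ev σ hs (‖s‖ + T) (by positivity)
    obtain ⟨C', hC', hev'⟩ := h2.ev σ hs (‖s‖ + T) (by positivity)
    refine ⟨C + C', by positivity, ?_⟩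
    intro t x ht0 htT hx0 hx1
    have hst : σ ≤ (s + t : ℂ).re := by rw [hre]; linarith
    have hnt : ‖(s + t : ℂ)‖ ≤ ‖s‖ + T := by
      refine (norm_add_le _ _).trans ?_
      rw [Complex.norm_real, Real.norm_of_nonneg ht0]
      linarith
    have e1 := hev (s + t) hst hnt x hx0 hx1
    have e2 := hev' (s + t) hst hnt x hx0 hx1
    set P := Φ (s + t) with hP
    set Q := Φ' (s + t) with hQ
    have hst' : (s + (t + x : ℝ) : ℂ) = s + t + x := by push_cast; ring
    have hid : Φ (s + t + x) - Φ' (s + t + x) = (P - Q) * (1 + (x / lam) * (P + Q))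
        + (Φ (s + t + x) - P - (x / lam) * (P ^ 2 - (s + t)))
        - (Φ' (s + t + x) - Q - (x / lam) * (Q ^ 2 - (s + t))) := by ring
    have hb : (1 + c * x) ≤ ‖1 + ((x / lam : ℝ) : ℂ) * (P + Q)‖ := by
      refine le_trans ?_ (Complex.re_le_norm _)
      rw [Complex.add_re, Complex.one_re, Complex.re_ofReal_mul, Complex.add_re]
      have r1 := h1.re (s + t) (by rw [hre]; linarith)
      have r2 := h2.re (s + t) (by rw [hre]; linarith)
      rw [hre] at r1 r2
      have r3 : Real.sqrt (σ / (1 + σ)) ≤ Real.sqrt ((σ + t) / (1 + (σ + t))) := by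
        apply Real.sqrt_le_sqrt
        rw [div_le_div_iff₀ (by linarith) (by linarith)]
        nlinarith
      have r4 : 1 / 2 * Real.sqrt (σ / (1 + σ)) ≤ P.re + Q.re := by linarith
      have r5 : x / lam * (1 / 2 * Real.sqrt (σ / (1 + σ))) ≤ x / lam * (P.re + Q.re) :=
        mul_le_mul_of_nonneg_left r4 (by positivity)
      have r6 : c * x = x / lam * (1 / 2 * Real.sqrt (σ / (1 + σ))) := by
        rw [hc]; field_simp
      linarith
    have hcast : (x : ℂ) / lam = ((x / lam : ℝ) : ℂ) := by push_cast; rfl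
    rw [hcast] at hid e1 e2
    show (1 + c * x) * ‖P - Q‖ - (C + C') * x ^ 2 ≤ ‖Φ (s + ((t + x : ℝ) : ℂ)) - Φ' (s + ((t + x : ℝ) : ℂ))‖
    rw [hst']
    have h5 : ‖(P - Q) * (1 + ((x / lam : ℝ) : ℂ) * (P + Q))‖ ≤
        ‖Φ (s + t + x) - Φ' (s + t + x)‖
        + ‖Φ (s + t + x) - P - ((x / lam : ℝ) : ℂ) * (P ^ 2 - (s + t))‖
        + ‖Φ' (s + t + x) - Q - ((x / lam : ℝ) : ℂ) * (Q ^ 2 - (s + t))‖ := by
      have : (P - Q) * (1 + ((x / lam : ℝ) : ℂ) * (P + Q)) =
        (Φ (s + t + x) - Φ' (s + t + x))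
        - (Φ (s + t + x) - P - ((x / lam : ℝ) : ℂ) * (P ^ 2 - (s + t)))
        + (Φ' (s + t + x) - Q - ((x / lam : ℝ) : ℂ) * (Q ^ 2 - (s + t))) := by
        linear_combination -hid
      rw [this]
      exact (norm_add_le _ _).trans (add_le_add_left (norm_sub_le _ _) _)
    rw [norm_mul] at h5
    have h6 : ‖P - Q‖ * (1 + c * x) ≤ ‖P - Q‖ * ‖1 + ((x / lam : ℝ) : ℂ) * (P + Q)‖ :=
      mul_le_mul_of_nonneg_left hb (norm_nonneg _)
    linarith
  have hbd : ∀ T : ℝ, 0 ≤ T → f T ≤ 8 * Real.sqrt (‖s‖ + (3 * lam + 1) + T) := by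
    intro T hT
    have b1 := h1.bd (s + T) (by rw [hre]; linarith)
    have b2 := h2.bd (s + T) (by rw [hre]; linarith)
    have hn : ‖(s + T : ℂ)‖ ≤ ‖s‖ + T := by
      refine (norm_add_le _ _).trans ?_
      rw [Complex.norm_real, Real.norm_of_nonneg hT]
    have b3 : Real.sqrt (‖(s + T : ℂ)‖ + (3 * lam + 1)) ≤ Real.sqrt (‖s‖ + (3 * lam + 1) + T) :=
      Real.sqrt_le_sqrt (by linarith)
    refine (norm_sub_le _ _).trans ?_
    linarith
  have hf0 : f 0 = ‖Φ s - Φ' s‖ := by simp [hf]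
  by_contra hne
  have hpos : 0 < f 0 := by
    rw [hf0, norm_pos_iff, sub_ne_zero]
    exact hne
  set A := ‖s‖ + (3 * lam + 1) with hA
  have hA0 : 0 < A := by positivity
  set T : ℝ := 64 * (A + 1) / (f 0 * c) ^ 2 + 1 with hT
  have hT1 : 1 ≤ T := by
    have : 0 ≤ 64 * (A + 1) / (f 0 * c) ^ 2 := by positivity
    linarith
  have h3 := (hgrow T (by linarith)).trans (hbd T (by linarith))
  have h4 : f 0 * c * T ≤ 8 * Real.sqrt (A + T) := by nlinarith
  have h5 : (f 0 * c * T) ^ 2 ≤ 64 * (A + T) := by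
    have h6 := pow_le_pow_left₀ (by positivity) h4 2
    have h6' : (8 * Real.sqrt (A + T)) ^ 2 = 64 * (A + T) := by
      rw [mul_pow, Real.sq_sqrt (by linarith)]
      norm_num
    rw [h6'] at h6
    exact h6
  have h7 : A + T ≤ (A + 1) * T := by nlinarith
  have h8 : (f 0 * c) ^ 2 * T ≤ 64 * (A + 1) := by
    have h9 : (f 0 * c) ^ 2 * T * T ≤ 64 * (A + 1) * T := by nlinarith
    exact le_of_mul_le_mul_right h9 (by linarith)
  have h10 : (f 0 * c) ^ 2 * T = 64 * (A + 1) + (f 0 * c) ^ 2 := by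
    rw [hT]
    field_simp
  have h11 : 0 < (f 0 * c) ^ 2 := by positivity
  linarith

end Pool.Agent.Gap.St
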