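import Pool.Agent.Lib_helper73.Gap.St4

/-! MP_f6626d_co, module LIM, part 5: convergence of the rescaled functions and of their
derivatives. -/

set_option autoImplicit false

open Finset Filter Topology

namespace Pool.Agent.Gap.St

lemma exists_ultra {lam : ℝ} (hl : 0 ≤ lam) {hn : ℕ → ℝ} (h0 : ∀ n, 0 < hn n) (h1 : ∀ n, hn n ≤ 1)
    (U : Ultrafilter ℕ) : ∃ Φ : ℂ → ℂ, ∀ s : ℂ, 0 < s.re →
      Tendsto (fun n => Ps lam (hn n) s) U (𝓝 (Φ s)) := by
  have : ∀ s : ℂ, ∃ a : ℂ, 0 < s.re → Tendsto (fun n => Ps lam (hn n) s) U (𝓝 a) := by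
    intro s
    by_cases hs : 0 < s.re
    · have hc := isCompact_closedBall (0 : ℂ) (4 * Real.sqrt (‖s‖ + (3 * lam + 1)))
      obtain ⟨a, _, ha⟩ := hc.ultrafilter_le_nhds (U.map (fun n => Ps lam (hn n) s)) (by
        rw [le_principal_iff]
        refine Ultrafilter.mem_map.2 ?_
        refine Filter.univ_mem' fun n => ?_
        show Ps lam (hn n) s ∈ Metric.closedBall (0 : ℂ) (4 * Real.sqrt (‖s‖ + (3 * lam + 1)))
        rw [mem_closedBall_zero_iff]
        exact norm_Ps_le_of hl (h0 n) (h1 n) hs.le le_rfl)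
      exact ⟨a, fun _ => ha⟩
    · exact ⟨0, fun h => absurd h hs⟩
  choose Φ hΦ using this
  exact ⟨Φ, hΦ⟩

lemma good_of_tendsto {lam : ℝ} (hl : 0 < lam) {hn : ℕ → ℝ} (h0 : ∀ n, 0 < hn n)
    (h1 : ∀ n, hn n ≤ 1) (hlim : Tendsto hn atTop (𝓝 0)) {U : Ultrafilter ℕ} (hU : ↑U ≤ atTop (α := ℕ))
    {Φ : ℂ → ℂ} (hΦ : ∀ s : ℂ, 0 < s.re → Tendsto (fun n => Ps lam (hn n) s) U (𝓝 (Φ s))) :
    Good lam Φ := by
  constructor
  · intro s hs
    refine le_of_tendsto (hΦ s hs).norm (Filter.Eventually.of_forall fun n => ?_)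
    exact norm_Ps_le_of hl.le (h0 n) (h1 n) hs.le le_rfl
  · intro s hs
    refine ge_of_tendsto ((Complex.continuous_re.tendsto _).comp (hΦ s hs))
      (Filter.Eventually.of_forall fun n => ?_)
    exact (Pr_ge hl.le (h0 n) (h1 n) hs.le).trans (re_Ps_ge hl.le (h0 n) hs.le)
  · intro σ hσ M hM
    obtain ⟨C, hC, hev⟩ := evol hl hσ M hM
    refine ⟨C, hC, ?_⟩
    intro s hs hsM x hx0 hx1
    have hsr : 0 < s.re := hσ.trans_le hs
    have hsx : 0 < (s + x : ℂ).re := by
      have : (s + x : ℂ).re = s.re + x := by simp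
      rw [this]; linarith
    have t1 := hΦ s hsr
    have t2 := hΦ (s + x) hsx
    have t3 : Tendsto (fun n => ‖Ps lam (hn n) (s + x) - Ps lam (hn n) s
        - (x / lam) * (Ps lam (hn n) s ^ 2 - s)‖) U
        (𝓝 ‖Φ (s + x) - Φ s - (x / lam) * (Φ s ^ 2 - s)‖) :=
      ((t2.sub t1).sub (tendsto_const_nhds.mul ((t1.pow 2).sub tendsto_const_nhds))).norm
    have t4 : Tendsto (fun n => C * (x ^ 2 + hn n)) U (𝓝 (C * (x ^ 2 + 0))) :=
      tendsto_const_nhds.mul (tendsto_const_nhds.add (hlim.mono_left hU))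
    rw [add_zero] at t4
    exact le_of_tendsto_of_tendsto' t3 t4 fun n => hev (hn n) (h0 n) (h1 n) s hs hsM x hx0 hx1

/-- **Convergence of the rescaled functions.** -/
theorem tendsto_Ps {lam : ℝ} (hl : 0 ≤ lam) {hn : ℕ → ℝ} (h0 : ∀ n, 0 < hn n)
    (h1 : ∀ n, hn n ≤ 1) (hlim : Tendsto hn atTop (𝓝 0)) {s : ℂ} (hs : 0 < s.re) :
    ∃ l : ℂ, Tendsto (fun n => Ps lam (hn n) s) atTop (𝓝 l) := by
  have huniq : ∀ U V : Ultrafilter ℕ, ↑U ≤ atTop (α := ℕ) → ↑V ≤ atTop (α := ℕ) → ∀ Φ Φ' : ℂ → ℂ,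
      (∀ s : ℂ, 0 < s.re → Tendsto (fun n => Ps lam (hn n) s) U (𝓝 (Φ s))) →
      (∀ s : ℂ, 0 < s.re → Tendsto (fun n => Ps lam (hn n) s) V (𝓝 (Φ' s))) → Φ s = Φ' s := by
    intro U V hU hV Φ Φ' hΦ hΦ'
    rcases hl.eq_or_lt with hl0 | hl0
    · subst hl0
      have key : ∀ (U : Ultrafilter ℕ) (_ : ↑U ≤ atTop (α := ℕ)) (Φ : ℂ → ℂ)
          (_ : ∀ s : ℂ, 0 < s.re → Tendsto (fun n => Ps 0 (hn n) s) U (𝓝 (Φ s))),
          Φ s ^ 2 = s ∧ 0 < (Φ s).re := by
        intro U hU Φ hΦ
        constructor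
        · obtain ⟨C, hC, hst⟩ := step (lam := 0) le_rfl ‖s‖ (norm_nonneg _)
          have t1 : Tendsto (fun n => ‖Ps 0 (hn n) s ^ 2 - s‖) U (𝓝 ‖Φ s ^ 2 - s‖) :=
            (((hΦ s hs).pow 2).sub tendsto_const_nhds).norm
          have t2 : Tendsto (fun n => C / 2 * hn n) U (𝓝 (C / 2 * 0)) :=
            tendsto_const_nhds.mul (hlim.mono_left hU)
          rw [mul_zero] at t2
          have t3 := le_of_tendsto_of_tendsto' t1 t2 (fun n => by
            have h2 := hst (hn n) (h0 n) (h1 n) s hs.le le_rfl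
            simp only [Complex.ofReal_zero, mul_zero, zero_mul, add_zero, sub_self, zero_sub,
              norm_neg] at h2
            rw [norm_mul, norm_mul, Complex.norm_real, Real.norm_of_nonneg (h0 n).le] at h2
            have e2 : ‖(2 : ℂ)‖ = 2 := by norm_num
            rw [e2] at h2
            have h3 : (2 * hn n) * ‖Ps 0 (hn n) s ^ 2 - s‖ ≤ (2 * hn n) * (C / 2 * hn n) := by
              refine h2.trans (le_of_eq ?_)
              ring
            exact le_of_mul_le_mul_left h3 (by linarith [h0 n]))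
          have t4 : ‖Φ s ^ 2 - s‖ = 0 := le_antisymm t3 (norm_nonneg _)
          rw [norm_eq_zero, sub_eq_zero] at t4
          exact t4
        · have h2 : 1 / 4 * Real.sqrt (s.re / (1 + s.re)) ≤ (Φ s).re := by
            refine ge_of_tendsto ((Complex.continuous_re.tendsto _).comp (hΦ s hs))
              (Filter.Eventually.of_forall fun n => ?_)
            exact (Pr_ge le_rfl (h0 n) (h1 n) hs.le).trans (re_Ps_ge le_rfl (h0 n) hs.le)
          have h3 : 0 < 1 / 4 * Real.sqrt (s.re / (1 + s.re)) := by positivity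
          linarith
      obtain ⟨a1, a2⟩ := key U hU Φ hΦ
      obtain ⟨b1, b2⟩ := key V hV Φ' hΦ'
      have h3 : Φ s ^ 2 = Φ' s ^ 2 := a1.trans b1.symm
      rcases sq_eq_sq_iff_eq_or_eq_neg.1 h3 with h4 | h4
      · exact h4
      · exfalso
        rw [h4, Complex.neg_re] at a2
        linarith
    · exact (good_of_tendsto hl0 h0 h1 hlim hU hΦ).unique hl0
        (good_of_tendsto hl0 h0 h1 hlim hV hΦ') hs
  obtain ⟨Φ0, hΦ0⟩ := exists_ultra hl h0 h1 (Ultrafilter.of (atTop (α := ℕ)))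
  refine ⟨Φ0 s, ?_⟩
  rw [tendsto_iff_ultrafilter]
  intro V hV
  obtain ⟨Φ', hΦ'⟩ := exists_ultra hl h0 h1 V
  rw [huniq _ V (Ultrafilter.of_le _) hV Φ0 Φ' hΦ0 hΦ']
  exact hΦ' s hs

/-- convergence of derivatives from pointwise convergence and local bounds -/
lemma tendsto_deriv_of_bounded {f : ℕ → ℂ → ℂ} {w : ℂ} {r M : ℝ} (hr : 0 < r)
    (hd : ∀ n, DifferentiableOn ℂ (f n) (Metric.closedBall w r))
    (hb : ∀ n, ∀ ζ ∈ Metric.closedBall w r, ‖f n ζ‖ ≤ M) {g : ℂ → ℂ}
    (hg : ∀ ζ ∈ Metric.sphere w r, Tendsto (fun n => f n ζ) atTop (𝓝 (g ζ))) :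
    ∃ l : ℂ, Tendsto (fun n => deriv (f n) w) atTop (𝓝 l) := by
  have h1 : ∀ n, deriv (f n) w =
      (2 * Real.pi * Complex.I)⁻¹ • ∮ z in C(w, r), (1 / (z - w) ^ 2) • f n z := by
    intro n
    rw [(hd n).deriv_eq_smul_circleIntegral hr, smul_smul, inv_mul_cancel₀, one_smul]
    exact Complex.two_pi_I_ne_zero
  have hsph : ∀ θ : ℝ, circleMap w r θ ∈ Metric.sphere w r := fun θ =>
    circleMap_mem_sphere w hr.le θ
  have hM : 0 ≤ M := (norm_nonneg _).trans (hb 0 w (Metric.mem_closedBall_self hr.le))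
  have h2 : Tendsto (fun n => ∮ z in C(w, r), (1 / (z - w) ^ 2) • f n z) atTop
      (𝓝 (∮ z in C(w, r), (1 / (z - w) ^ 2) • g z)) := by
    unfold circleIntegral
    refine intervalIntegral.tendsto_integral_filter_of_dominated_convergence
      (fun _ => r * ((1 / r ^ 2) * M)) ?_ ?_ ?_ ?_
    · refine Filter.Eventually.of_forall fun n => ?_
      have hcont : Continuous fun θ : ℝ => deriv (circleMap w r) θ •
          (1 / (circleMap w r θ - w) ^ 2) • f n (circleMap w r θ) := by
        have c1 : Continuous (deriv (circleMap w r)) := by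
          have : deriv (circleMap w r) = fun θ => circleMap 0 r θ * Complex.I := by
            ext θ; exact deriv_circleMap w r θ
          rw [this]
          exact (continuous_circleMap 0 r).mul continuous_const
        have c2 : Continuous fun θ => f n (circleMap w r θ) :=
          (hd n).continuousOn.comp_continuous (continuous_circleMap w r)
            (fun θ => Metric.sphere_subset_closedBall (hsph θ))
        have c3 : Continuous fun θ => (1 : ℂ) / (circleMap w r θ - w) ^ 2 := by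
          refine continuous_const.div (((continuous_circleMap w r).sub continuous_const).pow 2) ?_
          intro θ
          have : circleMap w r θ ≠ w := circleMap_ne_center hr.ne'
          exact pow_ne_zero 2 (sub_ne_zero.2 this)
        exact c1.smul (c3.smul c2)
      exact hcont.aestronglyMeasurable
    · refine Filter.Eventually.of_forall fun n => ?_
      refine Filter.Eventually.of_forall fun θ _ => ?_
      rw [norm_smul, norm_smul, deriv_circleMap, norm_mul, Complex.norm_I, mul_one, norm_div,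
        norm_pow, norm_one]
      have e1 : ‖circleMap 0 r θ‖ = r := by
        have := norm_circleMap_zero r θ
        rw [this, abs_of_pos hr]
      have e2 : ‖circleMap w r θ - w‖ = r := by
        have := hsph θ
        rw [mem_sphere_iff_norm] at this
        exact this
      rw [e1, e2]
      refine mul_le_mul_of_nonneg_left ?_ hr.le
      exact mul_le_mul_of_nonneg_left (hb n _ (Metric.sphere_subset_closedBall (hsph θ)))
        (by positivity)
    · exact intervalIntegrable_const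
    · refine Filter.Eventually.of_forall fun θ _ => ?_
      exact tendsto_const_nhds.smul (tendsto_const_nhds.smul (hg _ (hsph θ)))
  exact ⟨_, by
    simp_rw [h1]
    exact h2.const_smul _⟩

end Pool.Agent.Gap.St
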