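import Pool.Agent.Lib_helper73.Gap.St5
import Pool.Agent.Lib_helper79.Gap.Defs3

/-! MP_f6626d_co, module LIM, part 6: arrays of the truncated staircase model. -/

set_option autoImplicit false

open Finset Filter Topology

namespace Pool.Agent.Gap.St

/-- the row sum of the truncated staircase kernel -/
lemma row_sum {eps : ℝ} {N : ℕ} {f : ℤ → ℝ} (hf : ∀ g : ℤ, (g < 1 ∨ (N : ℤ) < g) → f g = 0)
    {g : ℤ} (hg : 1 ≤ g) :
    ∑ g' ∈ Icc (1 : ℤ) N, stair.K (1, 1) g g' * GapKernel.wt eps (1, 1) g g' * f g' =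
      2 * Real.exp (-(eps * (2 * g))) * f g + Real.exp (-(eps * (2 * g + 1))) * f (g + 1)
        + Real.exp (-(eps * (2 * g - 1))) * f (g - 1) := by
  set F : ℤ → ℝ := fun g' => nnT (g' - g) * GapKernel.wt eps (1, 1) g g' * f g' with hF
  have h1 : ∑ g' ∈ Icc (1 : ℤ) N, stair.K (1, 1) g g' * GapKernel.wt eps (1, 1) g g' * f g' =
      ∑ g' ∈ Icc (1 : ℤ) N, F g' := by
    refine sum_congr rfl fun g' hg' => ?_
    rw [mem_Icc] at hg'
    have : stair.K (1, 1) g g' = nnT (g' - g) := if_pos ⟨hg, hg'.1⟩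
    rw [this]
  have h2 : ∑ g' ∈ Icc (1 : ℤ) N, F g' = ∑ g' ∈ Icc (1 : ℤ) N ∪ Icc (g - 1) (g + 1), F g' := by
    refine sum_subset subset_union_left fun g' _ hg' => ?_
    rw [mem_Icc] at hg'
    have : f g' = 0 := hf g' (by omega)
    simp [hF, this]
  have h3 : ∑ g' ∈ Icc (g - 1) (g + 1), F g' = ∑ g' ∈ Icc (1 : ℤ) N ∪ Icc (g - 1) (g + 1), F g' := by
    refine sum_subset subset_union_right fun g' _ hg' => ?_
    rw [mem_Icc] at hg'
    have : nnT (g' - g) = 0 := by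
      unfold nnT
      rw [if_neg (by omega), if_neg (by
        intro h
        rcases abs_eq (zero_le_one (α := ℤ)) |>.1 h with h | h <;> omega)]
    simp [hF, this]
  have h4 : Icc (g - 1) (g + 1) = {g - 1, g, g + 1} := by
    ext x
    simp only [mem_Icc, mem_insert, mem_singleton]
    omega
  rw [h1, h2, ← h3, h4, sum_insert (by simp; omega), sum_insert (by simp), sum_singleton]
  have n0 : nnT (g - g) = 2 := by simp [nnT]
  have n1 : nnT (g + 1 - g) = 1 := by simp [nnT]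
  have n2 : nnT (g - 1 - g) = 1 := by
    have : g - 1 - g = -1 := by ring
    rw [this]; simp [nnT]
  simp only [hF, n0, n1, n2, GapKernel.wt]
  have e0 : -(eps * ((1 : ℕ) : ℝ) * ((g : ℝ) + (g : ℝ))) = -(eps * (2 * g)) := by push_cast; ring
  have e1 : -(eps * ((1 : ℕ) : ℝ) * ((g : ℝ) + ((g + 1 : ℤ) : ℝ))) = -(eps * (2 * g + 1)) := by
    push_cast; ring
  have e2 : -(eps * ((1 : ℕ) : ℝ) * ((g : ℝ) + ((g - 1 : ℤ) : ℝ))) = -(eps * (2 * g - 1)) := by
    push_cast; ring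
  rw [e0, e1, e2]
  ring

lemma arr_zero {eps : ℝ} {N : ℕ} {b : ℕ → ℤ → ℝ} (hb : IsArr stair cap1 eps N b) (g : ℤ) :
    b 0 g = 0 := by
  by_cases hg : 1 ≤ g ∧ g ≤ N
  · rw [hb.step 0 g hg.1 hg.2]
    have : stair.S = {(1, 1)} := rfl
    rw [this, sum_singleton]
    simp [cap1]
  · exact hb.zero 0 g (by omega)

lemma arr_succ {eps : ℝ} {N : ℕ} {b : ℕ → ℤ → ℝ} (hb : IsArr stair cap1 eps N b) (n : ℕ) {g : ℤ}
    (hg : 1 ≤ g) (hgN : g ≤ N) : b (n + 1) g = cap1 (n + 1) g +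
      (2 * Real.exp (-(eps * (2 * g))) * b n g + Real.exp (-(eps * (2 * g + 1))) * b n (g + 1)
        + Real.exp (-(eps * (2 * g - 1))) * b n (g - 1)) := by
  rw [hb.step (n + 1) g hg hgN]
  have : stair.S = {(1, 1)} := rfl
  rw [this, sum_singleton, if_pos (by simp)]
  have e : n + 1 - ((1, 1) : ℕ × ℕ).1 = n := by simp
  rw [e, row_sum (hb.zero n) hg]

lemma arr_bounds {eps : ℝ} {N : ℕ} {b : ℕ → ℤ → ℝ} (hb : IsArr stair cap1 eps N b) (n : ℕ) :
    ∀ x : ℕ, x + 1 ≤ N → 0 ≤ b (n + 1) ((x + 1 : ℕ) : ℤ) ∧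
      b (n + 1) ((x + 1 : ℕ) : ℤ) ≤ aw (Real.exp (-eps)) n (x + 1) ∧
      (x + 1 + n ≤ N → b (n + 1) ((x + 1 : ℕ) : ℤ) = aw (Real.exp (-eps)) n (x + 1)) := by
  induction n with
  | zero =>
    intro x hx
    rw [arr_succ hb 0 (by push_cast; omega) (by exact_mod_cast hx)]
    simp only [arr_zero hb, mul_zero, add_zero]
    have : cap1 (0 + 1) ((x + 1 : ℕ) : ℤ) = aw (Real.exp (-eps)) 0 (x + 1) := by
      unfold cap1
      simp only [aw]
      by_cases h : x = 0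
      · subst h; simp
      · rw [if_neg (by push_cast; omega), if_neg (by omega)]
    rw [this]
    exact ⟨aw_nonneg (Real.exp_pos _).le _ _, le_rfl, fun _ => rfl⟩
  | succ n ih =>
    intro x hx
    rw [arr_succ hb (n + 1) (by push_cast; omega) (by exact_mod_cast hx)]
    have hc : cap1 (n + 1 + 1) ((x + 1 : ℕ) : ℤ) = 0 := by
      unfold cap1
      rw [if_neg (by omega)]
    rw [hc, zero_add, aw_succ]
    have p0 : Real.exp (-(eps * (2 * (((x + 1 : ℕ) : ℤ) : ℝ)))) = Real.exp (-eps) ^ (2 * x + 2) := by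
      rw [← Real.exp_nat_mul]; congr 1; push_cast; ring
    have p1 : Real.exp (-(eps * (2 * (((x + 1 : ℕ) : ℤ) : ℝ) + 1))) = Real.exp (-eps) ^ (2 * x + 3) := by
      rw [← Real.exp_nat_mul]; congr 1; push_cast; ring
    have p2 : Real.exp (-(eps * (2 * (((x + 1 : ℕ) : ℤ) : ℝ) - 1))) = Real.exp (-eps) ^ (2 * x + 1) := by
      rw [← Real.exp_nat_mul]; congr 1; push_cast; ring
    rw [p0, p1, p2]
    have q0 : (0 : ℝ) ≤ Real.exp (-eps) := (Real.exp_pos _).le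
    obtain ⟨a1, a2, a3⟩ := ih x hx
    -- value at g + 1
    have up : 0 ≤ b (n + 1) (((x + 1 : ℕ) : ℤ) + 1) ∧
        b (n + 1) (((x + 1 : ℕ) : ℤ) + 1) ≤ aw (Real.exp (-eps)) n (x + 2) ∧
        (x + 2 + n ≤ N → b (n + 1) (((x + 1 : ℕ) : ℤ) + 1) = aw (Real.exp (-eps)) n (x + 2)) := by
      by_cases h : x + 2 ≤ N
      · have := ih (x + 1) h
        have e : (((x + 1 : ℕ) : ℤ) + 1) = ((x + 1 + 1 : ℕ) : ℤ) := by push_cast; ring
        rw [e]
        exact this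
      · have hz : b (n + 1) (((x + 1 : ℕ) : ℤ) + 1) = 0 := hb.zero _ _ (by push_cast; omega)
        rw [hz]
        exact ⟨le_rfl, aw_nonneg q0 _ _, fun h' => absurd h' (by omega)⟩
    have down : 0 ≤ b (n + 1) (((x + 1 : ℕ) : ℤ) - 1) ∧
        b (n + 1) (((x + 1 : ℕ) : ℤ) - 1) ≤ aw (Real.exp (-eps)) n x ∧
        (x + 1 + n ≤ N → b (n + 1) (((x + 1 : ℕ) : ℤ) - 1) = aw (Real.exp (-eps)) n x) := by
      rcases x with _ | x
      · have hz : b (n + 1) (((0 + 1 : ℕ) : ℤ) - 1) = 0 := hb.zero _ _ (Or.inl (by norm_num))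
        rw [hz, aw_zero]
        exact ⟨le_rfl, le_rfl, fun _ => rfl⟩
      · have := ih x (by omega)
        have e : (((x + 1 + 1 : ℕ) : ℤ) - 1) = ((x + 1 : ℕ) : ℤ) := by push_cast; ring
        rw [e]
        exact ⟨this.1, this.2.1, fun h' => this.2.2 (by omega)⟩
    obtain ⟨u1, u2, u3⟩ := up
    obtain ⟨d1, d2, d3⟩ := down
    refine ⟨by positivity, ?_, ?_⟩
    · have f1 := mul_le_mul_of_nonneg_left a2 (by positivity : 0 ≤ 2 * Real.exp (-eps) ^ (2 * x + 2))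
      have f2 := mul_le_mul_of_nonneg_left u2 (by positivity : 0 ≤ Real.exp (-eps) ^ (2 * x + 3))
      have f3 := mul_le_mul_of_nonneg_left d2 (by positivity : 0 ≤ Real.exp (-eps) ^ (2 * x + 1))
      linarith
    · intro h
      rw [a3 (by omega), u3 (by omega), d3 (by omega)]

/-- the closed sequence -/
lemma close_zero {b : ℕ → ℤ → ℝ} : close 1 cap1 b 0 = 0 := by
  simp [close, cap1]

lemma close_succ {b : ℕ → ℤ → ℝ} (n : ℕ) : close 1 cap1 b (n + 1) = b n 1 := by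
  unfold close
  have : Icc (1 : ℤ) ((1 : ℕ) : ℤ) = {1} := by simp
  rw [this]
  simp only [sum_singleton]
  rw [sum_eq_single 1]
  · simp [cap1]
  · intro m _ hm
    simp [cap1, hm]
  · intro h
    exact absurd (mem_range.2 (by omega)) h

lemma close_one {eps : ℝ} {N : ℕ} {b : ℕ → ℤ → ℝ} (hb : IsArr stair cap1 eps N b) :
    close 1 cap1 b 1 = 0 := by
  rw [show (1 : ℕ) = 0 + 1 from rfl, close_succ, arr_zero hb]

lemma close_bounds {eps : ℝ} {N : ℕ} {b : ℕ → ℤ → ℝ} (hb : IsArr stair cap1 eps N b) (hN : 1 ≤ N)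
    (n : ℕ) : 0 ≤ close 1 cap1 b (n + 2) ∧
      close 1 cap1 b (n + 2) ≤ al (Real.exp (-eps)) n ∧
      (1 + n ≤ N → close 1 cap1 b (n + 2) = al (Real.exp (-eps)) n) := by
  have h := arr_bounds hb n 0 (by omega)
  rw [show n + 2 = (n + 1) + 1 from rfl, close_succ]
  have e : (((0 + 1 : ℕ) : ℤ)) = 1 := by norm_num
  rw [e] at h
  refine ⟨h.1, h.2.1, fun h' => h.2.2 (by omega)⟩

end Pool.Agent.Gap.St
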